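import Pool.Agent.Q286.UZ.Main
import Pool.Agent.Y24.F2

/-!
Recurrence of zeta along the zeros.
-/

set_option autoImplicit false
set_option linter.all false

namespace Pool.Agent.Q286.UZ

open Complex Filter Topology Set MeasureTheory ZU H370 H370.A2 H370.AS H295SI TH803TW TH803UC
open Pool.Agent.Y834.UT (SS ld Tgt hull exists_hull_rect max_hull F_diff)

/-- (the proof of `Pool.Agent.W190.rh_free`) -/
lemma rh_iff : RiemannHypothesis ↔ ∀ s : ℂ, 1 / 2 < s.re → riemannZeta s ≠ 0 := by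
  constructor
  · intro hRH s hs h0
    have h1 : s.re < 1 := by
      by_contra h
      exact riemannZeta_ne_zero_of_one_le_re (not_lt.1 h) h0
    have := hRH s h0 (by
      rintro ⟨n, hn⟩
      rw [hn] at hs
      have h2 : (-2 * ((n:ℂ) + 1)).re = -2 * ((n:ℝ) + 1) := by simp
      rw [h2] at hs
      have : (0:ℝ) ≤ n := Nat.cast_nonneg n
      linarith) (by
      rintro rfl
      norm_num at h1)
    linarith
  · intro hfree s hs htriv hs1
    have hle : s.re ≤ 1 / 2 := by
      by_contra h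
      exact hfree s (not_le.1 h) hs
    have hre0 : 0 < s.re := by
      by_contra h
      push Not at h
      have hs0 : s ≠ 0 := by
        rintro rfl
        rw [riemannZeta_zero] at hs
        norm_num at hs
      have h1 : ∀ n : ℕ, (1 - s) ≠ -n := by
        intro n hn
        have h2 := congrArg Complex.re hn
        simp at h2
        have : (0:ℝ) ≤ n := Nat.cast_nonneg n
        linarith
      have h2 : (1 - s) ≠ 1 := by
        intro h3
        apply hs0
        linear_combination -h3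
      have h3 := riemannZeta_one_sub h1 h2
      rw [sub_sub_cancel, hs] at h3
      have hz : riemannZeta (1 - s) ≠ 0 := riemannZeta_ne_zero_of_one_le_re (by simp; linarith)
      have hG : Complex.Gamma (1 - s) ≠ 0 := Complex.Gamma_ne_zero h1
      have hp : (2 * (Real.pi : ℂ)) ^ (-(1 - s)) ≠ 0 := by
        rw [Complex.cpow_def_of_ne_zero]
        · exact Complex.exp_ne_zero _
        · norm_num [Real.pi_ne_zero]
      have hc : Complex.cos (Real.pi * (1 - s) / 2) = 0 := by
        by_contra hc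
        exact absurd h3.symm (mul_ne_zero (mul_ne_zero (mul_ne_zero (mul_ne_zero two_ne_zero hp) hG) hc) hz)
      rw [Complex.cos_eq_zero_iff] at hc
      obtain ⟨k, hk⟩ := hc
      have hpi : (Real.pi : ℂ) ≠ 0 := by exact_mod_cast Real.pi_ne_zero
      have hs2 : s = -2 * (k : ℂ) := by
        field_simp at hk
        linear_combination (-1 : ℂ) * hk
      have hkpos : 0 < k := by
        have h4 := congrArg Complex.re hs2
        simp at h4
        have h5 : (0:ℝ) < k := by
          have h6 : s.re ≠ 0 := by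
            intro h7
            rw [h7] at h4
            have h8 : (k:ℝ) = 0 := by linarith
            apply hs0
            have h9 : (k:ℤ) = 0 := by exact_mod_cast h8
            rw [hs2, h9]
            simp
          have h10 : s.re < 0 := lt_of_le_of_ne h h6
          linarith
        exact_mod_cast h5
      apply htriv
      refine ⟨(k - 1).toNat, ?_⟩
      have h6 : (((k - 1).toNat : ℕ) : ℂ) = (k : ℂ) - 1 := by
        have : (((k - 1).toNat : ℤ)) = k - 1 := Int.toNat_of_nonneg (by omega)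
        have h7 : (((k - 1).toNat : ℤ) : ℂ) = ((k - 1 : ℤ) : ℂ) := by rw [this]
        push_cast at h7
        exact_mod_cast h7
      rw [h6, hs2]
      ring
    -- reflection
    by_contra hne
    have hlt : s.re < 1 / 2 := lt_of_le_of_ne hle hne
    have h1 : ∀ n : ℕ, s ≠ -n := by
      intro n hn
      have h2 := congrArg Complex.re hn
      simp at h2
      have : (0:ℝ) ≤ n := Nat.cast_nonneg n
      linarith
    have key := riemannZeta_one_sub h1 hs1
    rw [hs, mul_zero] at key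
    exact hfree (1 - s) (by simp; linarith) key


lemma zeta_diff {z : ℂ} (hz : z.re < 1) : DifferentiableAt ℂ riemannZeta z := by
  apply differentiableAt_riemannZeta
  rintro rfl
  norm_num at hz

/-- if zeta has no zeros in the interior of the hull, it is a target -/
theorem tgt_zeta {K : Set ℂ} (hK : IsCompact K) (hKs : ∀ z ∈ K, 1 / 2 < z.re ∧ z.re < 1)
    (h : ∀ z ∈ interior (hull K), riemannZeta z ≠ 0) : Tgt K riemannZeta := by
  obtain ⟨a, b, B, h1, h2, h3, h4, hR⟩ := exists_hull_rect hK hKs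
  have hlt : ∀ z ∈ hull K, z.re < 1 := fun z hz => (hR hz).2.1.trans_lt h3
  refine ⟨riemannZeta, fun _ _ => rfl, ?_, ?_, ?_⟩
  · intro z hz
    exact (zeta_diff (hlt z hz)).continuousAt.continuousWithinAt
  · intro z hz
    exact (zeta_diff (hlt z (interior_subset hz))).differentiableWithinAt
  · intro z hz
    exact Or.inl fun w hw => h w (connectedComponentIn_subset _ _ hw)

/-- approximate returns force zeros -/
theorem zero_near {K : Set ℂ} (hK : IsCompact K) (hKs : ∀ z ∈ K, 1 / 2 < z.re ∧ z.re < 1)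
    {z0 : ℂ} (hz0 : z0 ∈ interior (hull K)) (hζ : riemannZeta z0 = 0) {r0 : ℝ} (hr0 : 0 < r0) :
    ∃ ε : ℝ, 0 < ε ∧ ∀ t ∈ SS ε K riemannZeta, ∃ w : ℂ, ‖w - z0‖ ≤ r0 ∧
      riemannZeta (w + t * I) = 0 := by
  obtain ⟨a, b, B, h1, h2, h3, h4, hR⟩ := exists_hull_rect hK hKs
  have hlt : ∀ z ∈ hull K, z.re < 1 := fun z hz => (hR hz).2.1.trans_lt h3
  have hlow : ∀ z ∈ hull K, 1 / 2 < z.re := fun z hz => h1.trans_le (hR hz).1
  have hz0h : z0 ∈ hull K := interior_subset hz0
  have hz01 : z0 ≠ 1 := by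
    rintro rfl
    have := hlt 1 hz0h
    norm_num at this
  have han : AnalyticAt ℂ riemannZeta z0 := zeta_analytic hz01
  have hne : ∀ᶠ z in 𝓝[≠] z0, riemannZeta z ≠ 0 := by
    rcases han.eventually_eq_zero_or_eventually_ne_zero with h | h
    · exfalso
      have hA : AnalyticOnNhd ℂ riemannZeta ({1}ᶜ : Set ℂ) := fun z hz => zeta_analytic hz
      have hconn : IsPreconnected ({1}ᶜ : Set ℂ) :=
        (isConnected_compl_singleton_of_one_lt_rank (by simp) 1).isPreconnected
      have h5 := hA.eqOn_zero_of_preconnected_of_eventuallyEq_zero hconn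
        (show z0 ∈ ({1}ᶜ : Set ℂ) from hz01) h
      have h6 : riemannZeta 2 = 0 := h5 (show (2 : ℂ) ∈ ({1}ᶜ : Set ℂ) by simp)
      exact riemannZeta_ne_zero_of_one_lt_re (by norm_num) h6
    · exact h
  rw [eventually_nhdsWithin_iff, Metric.eventually_nhds_iff] at hne
  obtain ⟨r1, hr1, hne1⟩ := hne
  obtain ⟨r2, hr2, hb2⟩ := Metric.isOpen_iff.1 isOpen_interior z0 hz0
  set r : ℝ := min r0 (min (r1 / 2) (r2 / 2)) with hr
  have hrp : 0 < r := lt_min hr0 (lt_min (half_pos hr1) (half_pos hr2))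
  have hra : r ≤ r0 := min_le_left _ _
  have hrb : r ≤ r1 / 2 := (min_le_right _ _).trans (min_le_left _ _)
  have hrc : r ≤ r2 / 2 := (min_le_right _ _).trans (min_le_right _ _)
  have hcb : Metric.closedBall z0 r ⊆ hull K := by
    intro z hz
    apply interior_subset
    apply hb2
    rw [Metric.mem_closedBall] at hz
    rw [Metric.mem_ball]
    linarith
  have hsph : ∀ z ∈ Metric.sphere z0 r, riemannZeta z ≠ 0 := by
    intro z hz
    rw [Metric.mem_sphere] at hz
    apply hne1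
    · linarith
    · intro h
      rw [Set.mem_singleton_iff] at h
      rw [h, dist_self] at hz
      linarith
  obtain ⟨C, hC⟩ := (isCompact_sphere z0 r).exists_bound_of_continuousOn
    (f := fun z => (riemannZeta z)⁻¹) (by
      intro z hz
      have hzb : z ∈ hull K := hcb (Metric.sphere_subset_closedBall hz)
      exact ((zeta_diff (hlt z hzb)).continuousAt.inv₀ (hsph z hz)).continuousWithinAt)
  set C' : ℝ := max C 1 with hC'
  have hC'0 : 0 < C' := lt_of_lt_of_le one_pos (le_max_right _ _)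
  have hlowb : ∀ z ∈ Metric.sphere z0 r, 1 / C' ≤ ‖riemannZeta z‖ := by
    intro z hz
    have h5 := (hC z hz).trans (le_max_left C 1)
    have h6 : 0 < ‖riemannZeta z‖ := norm_pos_iff.2 (hsph z hz)
    rw [norm_inv] at h5
    rw [div_le_iff₀ hC'0]
    have h7 := mul_le_mul_of_nonneg_left h5 h6.le
    rw [mul_inv_cancel₀ h6.ne'] at h7
    linarith
  set m : ℝ := 1 / C' with hm
  have hm0 : 0 < m := by positivity
  refine ⟨m / 2, half_pos hm0, ?_⟩
  rintro t ⟨δ, hδ, ht⟩
  by_contra hcon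
  push Not at hcon
  have hFd : DifferentiableOn ℂ (fun z : ℂ => riemannZeta (z + t * I) - riemannZeta z)
      {z : ℂ | z.re < 1} := (F_diff t).sub fun z hz => (zeta_diff hz).differentiableWithinAt
  have hmax := max_hull hK hFd (isOpen_lt continuous_re continuous_const) hlt ht
  have hnz : ∀ w ∈ Metric.closedBall z0 r, riemannZeta (w + t * I) ≠ 0 := by
    intro w hw
    apply hcon
    rw [Metric.mem_closedBall, dist_eq_norm] at hw
    exact hw.trans hra
  have hz0m := hmax z0 hz0h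
  rw [hζ, sub_zero] at hz0m
  have hp0 : 0 < ‖riemannZeta (z0 + t * I)‖ :=
    norm_pos_iff.2 (hnz z0 (Metric.mem_closedBall_self hrp.le))
  have hδ0 : 0 < δ := hp0.trans_le hz0m
  have hg : DiffContOnCl ℂ (fun w : ℂ => (riemannZeta (w + t * I))⁻¹) (Metric.ball z0 r) := by
    apply DifferentiableOn.diffContOnCl
    rw [closure_ball z0 hrp.ne']
    intro w hw
    exact ((F_diff t w (hlt w (hcb hw))).mono (fun x hx => hlt x (hcb hx))).inv (hnz w hw)
  have hfr : ∀ w ∈ frontier (Metric.ball z0 r), ‖(riemannZeta (w + t * I))⁻¹‖ ≤ (m - δ)⁻¹ := by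
    intro w hw
    rw [frontier_ball z0 hrp.ne'] at hw
    have hwh : w ∈ hull K := hcb (Metric.sphere_subset_closedBall hw)
    have k1 := hmax w hwh
    have k2 := hlowb w hw
    rw [norm_inv]
    apply inv_anti₀ (by linarith)
    have k3 := norm_sub_norm_le (riemannZeta w) (riemannZeta w - riemannZeta (w + t * I))
    rw [sub_sub_cancel] at k3
    rw [norm_sub_rev (riemannZeta w)] at k3
    linarith
  have h5 := Complex.norm_le_of_forall_mem_frontier_norm_le Metric.isBounded_ball hg hfr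
    (subset_closure (Metric.mem_ball_self hrp))
  rw [norm_inv] at h5
  have h6 : δ⁻¹ ≤ ‖riemannZeta (z0 + t * I)‖⁻¹ := inv_anti₀ hp0 hz0m
  have h7 : δ⁻¹ ≤ (m - δ)⁻¹ := h6.trans h5
  have h8 : m - δ ≤ δ := (inv_le_inv₀ hδ0 (by linarith)).1 h7
  linarith

lemma order_one {ρ : ℂ} (h : riemannZeta ρ = 0) (h1 : 0 < ρ.im) :
    (1 : ℝ) ≤ (analyticOrderNatAt riemannZeta ρ : ℝ) := by
  have hs1 : ρ ≠ 1 := by
    intro hh
    rw [hh] at h1
    norm_num at h1
  have ha := zeta_analytic hs1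
  have h6 : analyticOrderNatAt riemannZeta ρ ≠ 0 := by
    intro h0
    unfold analyticOrderNatAt at h0
    rw [ENat.toNat_eq_zero] at h0
    rcases h0 with h0 | h0
    · exact (ha.analyticOrderAt_eq_zero.1 h0) h
    · rw [analyticOrderAt_eq_top] at h0
      have hA : AnalyticOnNhd ℂ riemannZeta ({1}ᶜ : Set ℂ) := fun z hz => zeta_analytic hz
      have hconn : IsPreconnected ({1}ᶜ : Set ℂ) :=
        (isConnected_compl_singleton_of_one_lt_rank (by simp) 1).isPreconnected
      have h5 := hA.eqOn_zero_of_preconnected_of_eventuallyEq_zero hconn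
        (show ρ ∈ ({1}ᶜ : Set ℂ) from hs1) h0
      have h6 : riemannZeta 2 = 0 := h5 (show (2 : ℂ) ∈ ({1}ᶜ : Set ℂ) by simp)
      exact riemannZeta_ne_zero_of_one_lt_re (by norm_num) h6
  have : 1 ≤ analyticOrderNatAt riemannZeta ρ := Nat.one_le_iff_ne_zero.2 h6
  exact_mod_cast this

/-- **Zeros to the right of the critical line make returns rare.** -/
theorem rare_rec {K : Set ℂ} (hK : IsCompact K) (hKs : ∀ z ∈ K, 1 / 2 < z.re ∧ z.re < 1)
    {z0 : ℂ} (hz0 : z0 ∈ interior (hull K)) (hζ : riemannZeta z0 = 0) {δ : ℝ}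
    (hδ : δ < 4 / 3 * (z0.re - 1 / 2)) : ∃ ε : ℝ, 0 < ε ∧ ∃ T0 : ℝ, 10 ≤ T0 ∧ ∀ T ≥ T0,
      NU riemannZeta T (2 * T) (fun t => t ∈ SS ε K riemannZeta) ≤ T ^ (1 - δ) := by
  classical
  obtain ⟨a, b, B, h1, h2, h3, h4, hR⟩ := exists_hull_rect hK hKs
  have hz0h : z0 ∈ hull K := interior_subset hz0
  have hx : 0 < z0.re - 1 / 2 := by
    have := h1.trans_le (hR hz0h).1
    linarith
  -- constants
  obtain ⟨c, hc1, hc2, hc0⟩ : ∃ c : ℝ, δ < c * (z0.re - 1 / 2) ∧ c < 4 / 3 ∧ 0 < c := by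
    have k1 : max (δ / (z0.re - 1 / 2)) 0 < 4 / 3 := by
      apply max_lt _ (by norm_num)
      rw [div_lt_iff₀ hx]
      exact hδ
    obtain ⟨c, hc, hc'⟩ := exists_between k1
    refine ⟨c, ?_, hc', (le_max_right _ _).trans_lt hc⟩
    have := (le_max_left (δ / (z0.re - 1 / 2)) 0).trans_lt hc
    rwa [div_lt_iff₀ hx] at this
  obtain ⟨r0, hr0, hr1, hr2⟩ : ∃ r0 : ℝ, 0 < r0 ∧ r0 ≤ z0.re - 1 / 2 ∧
      δ < c * (z0.re - r0 - 1 / 2) := by
    refine ⟨min (z0.re - 1 / 2) ((c * (z0.re - 1 / 2) - δ) / (2 * c)), lt_min hx ?_,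
      min_le_left _ _, ?_⟩
    · apply div_pos _ (by positivity)
      linarith
    · have k1 : min (z0.re - 1 / 2) ((c * (z0.re - 1 / 2) - δ) / (2 * c)) ≤
        (c * (z0.re - 1 / 2) - δ) / (2 * c) := min_le_right _ _
      have k2 := mul_le_mul_of_nonneg_left k1 hc0.le
      have k3 : c * ((c * (z0.re - 1 / 2) - δ) / (2 * c)) = (c * (z0.re - 1 / 2) - δ) / 2 := by
        field_simp
      rw [k3] at k2
      have e : c * (z0.re - min (z0.re - 1 / 2) ((c * (z0.re - 1 / 2) - δ) / (2 * c)) - 1 / 2) =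
        c * (z0.re - 1 / 2) - c * min (z0.re - 1 / 2) ((c * (z0.re - 1 / 2) - δ) / (2 * c)) := by
        ring
      rw [e]
      linarith
  obtain ⟨ε, hε, hnear⟩ := zero_near hK hKs hz0 hζ hr0
  set σ : ℝ := z0.re - r0 with hσ
  set R : ℝ := |z0.im| + r0 with hRR
  have hR0 : 0 < R := by positivity
  have hσ1 : 1 / 2 ≤ σ := by rw [hσ]; linarith
  have hσ2 : σ ≤ 1 := by
    have := (hR hz0h).2.1
    rw [hσ]; linarith
  obtain ⟨C2, hC2, hdens⟩ := Pool.Agent.Y24.density hc2
  obtain ⟨C1, hC1, hZ⟩ := Zg_le good_zeta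
  set x : ℝ := c * (σ - 1 / 2) with hxd
  have hx0 : 0 ≤ x := mul_nonneg hc0.le (by linarith)
  have hx1 : x ≤ 1 := by
    rw [hxd]
    nlinarith
  have hxδ : 0 < x - δ := by rw [hxd, hσ]; linarith
  set C3 : ℝ := Real.exp (R ^ 2 / 2) * C1 * (C2 * 3 * 2) with hC3
  have hC30 : 0 < C3 := by positivity
  have hlog : ∀ᶠ T : ℝ in atTop, C3 * Real.log T ^ 2 ≤ T ^ (x - δ) := by
    have k1 := (isLittleO_log_rpow_rpow_atTop 2 hxδ).bound (show (0 : ℝ) < 1 / C3 by positivity)
    filter_upwards [k1, eventually_gt_atTop 1] with T k2 hT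
    rw [Real.rpow_two, Real.norm_eq_abs, abs_of_nonneg (sq_nonneg (Real.log T)),
      Real.norm_eq_abs, abs_of_nonneg (Real.rpow_nonneg (show (0 : ℝ) ≤ T by linarith) _)] at k2
    have k3 := mul_le_mul_of_nonneg_left k2 hC30.le
    have k4 : C3 * (1 / C3 * T ^ (x - δ)) = T ^ (x - δ) := by field_simp
    rw [k4] at k3
    exact k3
  obtain ⟨T1, hT1⟩ := hlog.exists_forall_of_atTop
  refine ⟨ε, hε, max T1 (R + 10), by
    have := le_max_right T1 (R + 10)
    linarith, fun T hT => ?_⟩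
  have hTT1 : T1 ≤ T := (le_max_left _ _).trans hT
  have hTR : R + 10 ≤ T := (le_max_right _ _).trans hT
  have hT10 : 10 ≤ T := by linarith
  have hTone : 1 ≤ T := by linarith
  have hL : 0 ≤ Real.log T := Real.log_nonneg hTone
  have hfin := Pool.Agent.Y24.ZZ_fin σ (2 * T + R)
  set W : Finset ℂ := hfin.toFinset with hW
  -- each zero which returns has a partner
  have hpart : ∀ s ∈ Zf riemannZeta T (2 * T), s.im ∈ SS ε K riemannZeta →
      ∃ ρ ∈ W, |s.im - ρ.im| ≤ R := by
    intro s hs hsS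
    rw [mem_Zf good_zeta hTone] at hs
    obtain ⟨w, hw1, hw2⟩ := hnear s.im hsS
    have hre := abs_le.1 ((Complex.abs_re_le_norm (w - z0)).trans hw1)
    have him := abs_le.1 ((Complex.abs_im_le_norm (w - z0)).trans hw1)
    rw [Complex.sub_re] at hre
    rw [Complex.sub_im] at him
    have hz1 := neg_abs_le z0.im
    have hz2 := le_abs_self z0.im
    have e1 : (w + (s.im : ℂ) * I).im = w.im + s.im := by simp
    have e2 : (w + (s.im : ℂ) * I).re = w.re := by simp
    refine ⟨w + (s.im : ℂ) * I, ?_, ?_⟩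
    · rw [hW, Set.Finite.mem_toFinset]
      refine ⟨hw2, ?_, ?_, ?_⟩
      · rw [e2, hσ]; linarith [hre.1]
      · rw [e1]; linarith [hs.2.2.1, him.1]
      · rw [e1]; linarith [hs.2.2.2.1, him.2]
    · rw [e1, abs_le]
      constructor <;> linarith [him.1, him.2]
  have hNU : NU riemannZeta T (2 * T) (fun t => t ∈ SS ε K riemannZeta) ≤
      ∑ ρ ∈ W, Real.exp (R ^ 2 / 2) * Zg riemannZeta T (2 * T) ρ.im := by
    unfold NU Zg
    simp_rw [Finset.mul_sum]
    rw [Finset.sum_comm, Finset.sum_filter]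
    refine Finset.sum_le_sum fun s hs => ?_
    have hm : (0 : ℝ) ≤ mult riemannZeta s := Nat.cast_nonneg _
    have hnn : ∀ ρ ∈ W, (0 : ℝ) ≤ Real.exp (R ^ 2 / 2) *
        ((mult riemannZeta s : ℝ) * Real.exp (-(s.im - ρ.im) ^ 2 / 2)) := fun ρ _ => by positivity
    split_ifs with hsS
    · obtain ⟨ρ, hρ, hρR⟩ := hpart s hs hsS
      refine le_trans ?_ (Finset.single_le_sum hnn hρ)
      have k1 : (s.im - ρ.im) ^ 2 ≤ R ^ 2 := by
        rw [← sq_abs (s.im - ρ.im)]
        exact pow_le_pow_left₀ (abs_nonneg _) hρR 2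
      have k2 : 1 ≤ Real.exp (R ^ 2 / 2) * Real.exp (-(s.im - ρ.im) ^ 2 / 2) := by
        rw [← Real.exp_add]
        apply Real.one_le_exp
        linarith
      calc (mult riemannZeta s : ℝ) = (mult riemannZeta s : ℝ) * 1 := (mul_one _).symm
        _ ≤ (mult riemannZeta s : ℝ) *
            (Real.exp (R ^ 2 / 2) * Real.exp (-(s.im - ρ.im) ^ 2 / 2)) :=
            mul_le_mul_of_nonneg_left k2 hm
        _ = _ := by ring
    · exact Finset.sum_nonneg hnn
  refine hNU.trans ?_
  have hcard : (W.card : ℝ) ≤ C2 * (2 * T + R) ^ (1 - x) * Real.log (2 * T + R) := by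
    have k1 := (hdens σ (2 * T + R) hσ1 hσ2 (by linarith)).2
    rw [finsum_mem_eq_finite_toFinset_sum _ hfin] at k1
    refine le_trans ?_ k1
    rw [Finset.card_eq_sum_ones, Nat.cast_sum]
    refine Finset.sum_le_sum fun ρ hρ => ?_
    rw [Nat.cast_one]
    rw [hW, Set.Finite.mem_toFinset] at hρ
    exact order_one hρ.1 hρ.2.2.1
  have hsum : ∑ ρ ∈ W, Real.exp (R ^ 2 / 2) * Zg riemannZeta T (2 * T) ρ.im ≤
      W.card * (Real.exp (R ^ 2 / 2) * (C1 * Real.log T)) := by
    rw [← nsmul_eq_mul]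
    refine Finset.sum_le_card_nsmul _ _ _ fun ρ _ => ?_
    exact mul_le_mul_of_nonneg_left (hZ T (by linarith) T (2 * T) le_rfl le_rfl ρ.im)
      (Real.exp_pos _).le
  refine hsum.trans ?_
  have hpow : (2 * T + R) ^ (1 - x) ≤ 3 * T ^ (1 - x) := by
    calc (2 * T + R) ^ (1 - x) ≤ (3 * T) ^ (1 - x) :=
          Real.rpow_le_rpow (by linarith) (by linarith) (by linarith)
      _ = 3 ^ (1 - x) * T ^ (1 - x) := Real.mul_rpow (by norm_num) (by linarith)
      _ ≤ 3 ^ (1 : ℝ) * T ^ (1 - x) := by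
          apply mul_le_mul_of_nonneg_right _ (Real.rpow_nonneg (by linarith) _)
          exact Real.rpow_le_rpow_of_exponent_le (by norm_num) (by linarith)
      _ = 3 * T ^ (1 - x) := by rw [Real.rpow_one]
  have hlog2 : Real.log (2 * T + R) ≤ 2 * Real.log T := by
    have k1 : 2 * T + R ≤ T ^ 2 := by nlinarith
    calc Real.log (2 * T + R) ≤ Real.log (T ^ 2) := Real.log_le_log (by linarith) k1
      _ = 2 * Real.log T := by rw [Real.log_pow]; norm_num
  have hP : 0 ≤ T ^ (1 - x) := Real.rpow_nonneg (by linarith) _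
  have hcard2 : (W.card : ℝ) ≤ C2 * (3 * T ^ (1 - x)) * (2 * Real.log T) := by
    refine hcard.trans ?_
    apply mul_le_mul _ hlog2 (Real.log_nonneg (by linarith)) (by positivity)
    exact mul_le_mul_of_nonneg_left hpow hC2.le
  calc (W.card : ℝ) * (Real.exp (R ^ 2 / 2) * (C1 * Real.log T)) ≤
      (C2 * (3 * T ^ (1 - x)) * (2 * Real.log T)) * (Real.exp (R ^ 2 / 2) * (C1 * Real.log T)) :=
        mul_le_mul_of_nonneg_right hcard2 (by positivity)
    _ = T ^ (1 - x) * (C3 * Real.log T ^ 2) := by rw [hC3]; ring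
    _ ≤ T ^ (1 - x) * T ^ (x - δ) := mul_le_mul_of_nonneg_left (hT1 T hTT1) hP
    _ = T ^ (1 - δ) := by
        rw [← Real.rpow_add (by linarith)]
        congr 1
        ring

/-- closed discs have connected complement: the hull is the disc itself -/
lemma disc_int {z0 : ℂ} {r : ℝ} (hr : 0 < r) :
    z0 ∈ interior (hull (Metric.closedBall z0 r)) := by
  rw [mem_interior]
  exact ⟨Metric.ball z0 r, Metric.ball_subset_closedBall.trans
    (Pool.Agent.Y834.UT.subset_hull _), Metric.isOpen_ball, Metric.mem_ball_self hr⟩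

/-- the Riemann hypothesis and recurrence at zeros -/
theorem rh_tfae : [RiemannHypothesis,
    ∀ K : Set ℂ, IsCompact K → (∀ z ∈ K, 1 / 2 < z.re ∧ z.re < 1) → ∀ ε : ℝ, 0 < ε →
      ∃ κ : ℝ, 0 < κ ∧ ∃ T0 : ℝ, ∀ T ≥ T0, κ * NN riemannZeta T (2 * T) ≤
        ({t : ℝ | t ∈ SC T (2 * T) ∧ t ∈ SS ε K riemannZeta}.ncard : ℝ),
    ∀ (z0 : ℂ) (r : ℝ), 0 < r → (∀ z ∈ Metric.closedBall z0 r, 1 / 2 < z.re ∧ z.re < 1) →
      ∀ ε : ℝ, 0 < ε → ∀ δ : ℝ, 0 < δ → ∀ T0 : ℝ, ∃ T ≥ T0, T ^ (1 - δ) <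
        NU riemannZeta T (2 * T) (fun t => t ∈ SS ε (Metric.closedBall z0 r) riemannZeta)].TFAE := by
  tfae_have 1 → 2 := by
    intro h K hK hKs ε hε
    rw [rh_iff] at h
    obtain ⟨a, b, B, h1, h2, h3, h4, hR⟩ := exists_hull_rect hK hKs
    have ht := tgt_zeta hK hKs fun z hz => h z (h1.trans_le (hR (interior_subset hz)).1)
    obtain ⟨κ, hκ, T0, -, hT⟩ := target_simple hK hKs ht hε
    exact ⟨κ, hκ, T0, hT⟩
  tfae_have 2 → 3 := by
    intro h z0 r hr hs ε hε δ hδ T0
    obtain ⟨κ, hκ, T1, hT1⟩ := h (Metric.closedBall z0 r) (isCompact_closedBall z0 r) hs ε hε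
    obtain ⟨TN, hTN, hN⟩ := NN_low good_zeta
    have hev : ∀ᶠ T : ℝ in atTop, 7 / κ < T ^ δ :=
      (tendsto_rpow_atTop hδ).eventually_gt_atTop _
    have hev2 : ∀ᶠ T : ℝ in atTop, 1 < Real.log T := Real.tendsto_log_atTop.eventually_gt_atTop _
    obtain ⟨T, ⟨⟨⟨k1, k2⟩, k3⟩, k4⟩, k5⟩ := ((((hev.and hev2).and (eventually_ge_atTop T0)).and
      (eventually_ge_atTop T1)).and (eventually_ge_atTop TN)).exists
    refine ⟨T, k3, ?_⟩
    have hT10 : 10 ≤ T := hTN.trans k5
    refine lt_of_lt_of_le ?_ ((hT1 T k4).trans (SC_le_NU (by linarith) _))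
    have k6 := hN T k5
    have k7 : T ^ (1 - δ) = T / T ^ δ := by
      rw [Real.rpow_sub (by linarith), Real.rpow_one]
    have hTδ : 0 < T ^ δ := Real.rpow_pos_of_pos (by linarith) _
    rw [k7, div_lt_iff₀ hTδ]
    have k8 : T < T * Real.log T := by nlinarith
    rw [div_lt_iff₀ hκ] at k1
    have hNp : (0 : ℝ) < NN riemannZeta T (2 * T) := NN_pos hT10 k6
    calc T < T * Real.log T := k8
      _ ≤ 7 * NN riemannZeta T (2 * T) := k6
      _ ≤ (T ^ δ * κ) * NN riemannZeta T (2 * T) := mul_le_mul_of_nonneg_right k1.le hNp.le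
      _ = κ * NN riemannZeta T (2 * T) * T ^ δ := by ring
  tfae_have 3 → 1 := by
    intro h
    rw [rh_iff]
    intro s hs h0
    have hs1 : s.re < 1 := by
      by_contra hcon
      exact riemannZeta_ne_zero_of_one_le_re (not_lt.1 hcon) h0
    set r : ℝ := min ((s.re - 1 / 2) / 2) ((1 - s.re) / 2) with hr
    have hr0 : 0 < r := lt_min (by linarith) (by linarith)
    have hr1 : r ≤ (s.re - 1 / 2) / 2 := min_le_left _ _
    have hr2 : r ≤ (1 - s.re) / 2 := min_le_right _ _
    have hsub : ∀ z ∈ Metric.closedBall s r, 1 / 2 < z.re ∧ z.re < 1 := by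
      intro z hz
      rw [Metric.mem_closedBall, dist_eq_norm] at hz
      have k1 := abs_le.1 ((Complex.abs_re_le_norm (z - s)).trans hz)
      rw [Complex.sub_re] at k1
      constructor <;> linarith [k1.1, k1.2]
    obtain ⟨ε, hε, T0, -, hT⟩ := rare_rec (isCompact_closedBall s r) hsub (disc_int hr0) h0
      (δ := (s.re - 1 / 2)) (by linarith)
    obtain ⟨T, hTT, h5⟩ := h s r hr0 hsub ε hε (s.re - 1 / 2) (by linarith) T0
    exact absurd (hT T hTT) (not_le.2 h5)
  tfae_finish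

end Pool.Agent.Q286.UZ
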