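import Pool.Agent.TH803.TW.Torus
import Pool.Agent.Helper240.ZU.E0
import Pool.Agent.Helper240.ZU.E1

/-!
Euler products over the primes `≤ M` as functions on the torus.
-/

set_option autoImplicit false
set_option linter.all false

namespace Pool.Agent.Q286.UZ

open Complex Filter Topology Set MeasureTheory ZU TH803TW

/-- number of primes `≤ M` -/
noncomputable def kk (M : ℕ) : ℕ := (pr M).card

noncomputable def ee (M : ℕ) : pr M ≃ Fin (kk M) := (pr M).equivFin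

/-- the `j`-th prime -/
noncomputable def pp (M : ℕ) (j : Fin (kk M)) : ℕ := ((ee M).symm j : ℕ)

lemma pp_mem (M : ℕ) (j : Fin (kk M)) : pp M j ∈ pr M := ((ee M).symm j).2

lemma pp_prime (M : ℕ) (j : Fin (kk M)) : (pp M j).Prime := (Finset.mem_filter.mp (pp_mem M j)).2

lemma pp_inj (M : ℕ) : Function.Injective (pp M) :=
  fun i j h => (ee M).symm.injective (Subtype.ext h)

/-- the frequencies -/
noncomputable def al (M : ℕ) (j : Fin (kk M)) : ℝ := Real.log (pp M j) / (2 * Real.pi)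

/-- logarithms of distinct primes have no integer relation -/
lemma log_indep {k : ℕ} (P : Fin k → ℕ) (hP : ∀ i, (P i).Prime) (hinj : Function.Injective P)
    (c : Fin k → ℤ) (h1 : ∑ i, (c i : ℝ) * Real.log (P i) = 0) : c = 0 := by
  classical
  have h3 : ∑ i, (((c i).toNat : ℕ) : ℝ) * Real.log (P i) =
      ∑ i, (((-c i).toNat : ℕ) : ℝ) * Real.log (P i) := by
    rw [← sub_eq_zero, ← Finset.sum_sub_distrib, ← h1]
    apply Finset.sum_congr rfl
    intro i _
    rw [← sub_mul]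
    congr 1
    have : ((c i).toNat : ℤ) - ((-c i).toNat : ℤ) = c i := by omega
    exact_mod_cast this
  have hpos : ∀ i, (0 : ℝ) < P i := fun i => by exact_mod_cast (hP i).pos
  have h4 : ∀ e : Fin k → ℕ, ∑ i, (e i : ℝ) * Real.log (P i) =
      Real.log ((∏ i, P i ^ e i : ℕ) : ℝ) := by
    intro e
    push_cast
    rw [Real.log_prod (fun i _ => (pow_pos (hpos i) _).ne')]
    apply Finset.sum_congr rfl
    intro i _
    rw [Real.log_pow]
  rw [h4, h4] at h3
  have hpp : ∀ e : Fin k → ℕ, 0 < ∏ i, P i ^ e i := fun e =>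
    Finset.prod_pos (fun i _ => pow_pos (hP i).pos _)
  have h5 : ∏ i, P i ^ (c i).toNat = ∏ i, P i ^ (-c i).toNat := by
    have := Real.log_injOn_pos (Set.mem_Ioi.2 (by exact_mod_cast hpp _))
      (Set.mem_Ioi.2 (by exact_mod_cast hpp _)) h3
    exact_mod_cast this
  funext j
  have h6 : ∀ e : Fin k → ℕ, (∏ i, P i ^ e i).factorization (P j) = e j := by
    intro e
    rw [Nat.factorization_prod (fun i _ => (pow_pos (hP i).pos _).ne')]
    rw [Finsupp.finsetSum_apply, Finset.sum_eq_single j]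
    · rw [(hP j).factorization_pow]; simp
    · intro i _ hij
      rw [(hP i).factorization_pow, Finsupp.single_apply, if_neg]
      intro h; exact hij (hinj h)
    · intro h; exact absurd (Finset.mem_univ j) h
  have h7 := h6 (fun i => (c i).toNat)
  have h8 := h6 (fun i => (-c i).toNat)
  beta_reduce at h7 h8
  rw [h5, h8] at h7
  show c j = 0
  omega

lemma al_indep (M : ℕ) (n : Fin (kk M) → ℤ) (h : ∑ j, (n j : ℝ) * al M j = 0) : n = 0 := by
  apply log_indep (pp M) (pp_prime M) (pp_inj M) n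
  have e : ∑ j, (n j : ℝ) * al M j = (∑ j, (n j : ℝ) * Real.log (pp M j)) / (2 * Real.pi) := by
    rw [Finset.sum_div]
    refine Finset.sum_congr rfl fun j _ => ?_
    unfold al
    ring
  rw [e] at h
  have hpi : (2 * Real.pi) ≠ 0 := by positivity
  exact (div_eq_zero_iff.1 h).resolve_right hpi

/-- the unimodular numbers attached to a point of the torus -/
noncomputable def Ph (M : ℕ) (x : UnitAddTorus (Fin (kk M))) (p : ℕ) : ℂ :=
  if h : p ∈ pr M then fourier (-1) (x (ee M ⟨p, h⟩)) else 1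

lemma Ph_norm (M : ℕ) (x : UnitAddTorus (Fin (kk M))) (p : ℕ) : ‖Ph M x p‖ = 1 := by
  unfold Ph
  split_ifs with h
  · rw [fourier_apply]; exact Circle.norm_coe _
  · exact norm_one

lemma Ph_cont (M : ℕ) (p : ℕ) : Continuous fun x : UnitAddTorus (Fin (kk M)) => Ph M x p := by
  unfold Ph
  split_ifs with h
  · exact (fourier (-1)).continuous.comp (continuous_apply _)
  · exact continuous_const

lemma Ph_pt (M : ℕ) (t : ℝ) {p : ℕ} (hp : p ∈ pr M) :
    Ph M (torusPt (al M) t) p = (p : ℂ) ^ (-(t * I)) := by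
  unfold Ph torusPt
  rw [dif_pos hp, fourier_coe_apply]
  have hpp : p.Prime := (Finset.mem_filter.mp hp).2
  have hp0 : (p : ℂ) ≠ 0 := by exact_mod_cast hpp.ne_zero
  rw [Complex.cpow_def_of_ne_zero hp0, ← Complex.natCast_log]
  have e : pp M (ee M ⟨p, hp⟩) = p := by
    unfold pp
    rw [Equiv.symm_apply_apply]
  congr 1
  unfold al
  rw [e]
  push_cast
  have hpi : (Real.pi : ℂ) ≠ 0 := by exact_mod_cast Real.pi_ne_zero
  field_simp

lemma EM_pt (M : ℕ) (t : ℝ) (s : ℂ) :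
    EM M (Ph M (torusPt (al M) t)) s = EM M (fun _ => 1) (s + t * I) := by
  rw [ZU.J_e1.de_EM_shift]
  unfold EM
  refine Finset.prod_congr rfl fun p hp => ?_
  rw [Ph_pt M t hp]

lemma EM_ne {M : ℕ} {a : ℕ → ℂ} (ha : ∀ p, ‖a p‖ = 1) {s : ℂ} (hs : 0 < s.re) : EM M a s ≠ 0 := by
  unfold EM
  rw [Finset.prod_ne_zero_iff]
  intro p hp
  have hpp : p.Prime := (Finset.mem_filter.mp hp).2
  have h1 := ZU.J_e0.ec_fac s.re hs p hpp.two_le s le_rfl (a p) (ha p)
  have h2 := ZU.J_e0.ec_c s.re hs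
  intro h
  rw [h, norm_zero] at h1
  linarith

/-- closed sets of the torus -/
def Cl (M : ℕ) (K : Set ℂ) (f : ℂ → ℂ) (e : ℝ) : Set (UnitAddTorus (Fin (kk M))) :=
  {x | ∀ s ∈ K, ‖(EM M (Ph M x) s)⁻¹ - f s‖ ≤ e}

/-- open sets of the torus -/
def Op (M : ℕ) (K : Set ℂ) (f : ℂ → ℂ) (e : ℝ) : Set (UnitAddTorus (Fin (kk M))) :=
  {x | ∃ δ < e, ∀ s ∈ K, ‖(EM M (Ph M x) s)⁻¹ - f s‖ ≤ δ}

lemma Cl_closed (M : ℕ) {K : Set ℂ} (hK : ∀ s ∈ K, 0 < s.re) (f : ℂ → ℂ) (e : ℝ) :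
    IsClosed (Cl M K f e) := by
  have h : Cl M K f e = ⋂ s ∈ K, {x | ‖(EM M (Ph M x) s)⁻¹ - f s‖ ≤ e} := by
    ext x
    simp only [Cl, Set.mem_setOf_eq, Set.mem_iInter]
  rw [h]
  refine isClosed_biInter fun s hs => ?_
  refine isClosed_le ?_ continuous_const
  refine Continuous.norm (Continuous.sub ?_ continuous_const)
  refine Continuous.inv₀ ?_ fun x => EM_ne (Ph_norm M x) (hK s hs)
  unfold EM
  refine continuous_finsetProd _ fun p _ => ?_
  exact continuous_const.sub ((Ph_cont M p).mul continuous_const)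

lemma Op_open (M : ℕ) {K : Set ℂ} {σ1 σ2 B : ℝ} (h1 : 0 < σ1) (hK : K ⊆ rect σ1 σ2 B) (f : ℂ → ℂ)
    (e : ℝ) : IsOpen (Op M K f e) := by
  rw [isOpen_iff_mem_nhds]
  rintro x ⟨δ, hδ, hx⟩
  obtain ⟨δ0, hδ0, h⟩ := euler_cont σ1 σ2 B h1 M (Ph M x) (Ph_norm M x) ((e - δ) / 2) (by linarith)
  have hev : ∀ᶠ y in 𝓝 x, ∀ p ∈ pr M, ‖Ph M y p - Ph M x p‖ < δ0 := by
    rw [Filter.eventually_all_finset]
    intro p _
    have hc : ContinuousAt (fun y => ‖Ph M y p - Ph M x p‖) x :=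
      (((Ph_cont M p).sub continuous_const).norm).continuousAt
    exact hc.eventually (gt_mem_nhds (by simpa using hδ0))
  filter_upwards [hev] with y hy
  refine ⟨(e + δ) / 2, by linarith, fun s hs => ?_⟩
  have h2 := h (Ph M y) (fun p hp => ⟨Ph_norm M y p, hy p hp⟩) s (hK hs)
  have h3 := hx s hs
  have e1 : (EM M (Ph M y) s)⁻¹ - f s =
    ((EM M (Ph M y) s)⁻¹ - (EM M (Ph M x) s)⁻¹) + ((EM M (Ph M x) s)⁻¹ - f s) := by ring
  rw [e1]
  refine (norm_add_le _ _).trans ?_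
  linarith

lemma Cl_sub_Op (M : ℕ) (K : Set ℂ) (f : ℂ → ℂ) {e1 e2 : ℝ} (h : e1 < e2) :
    Cl M K f e1 ⊆ Op M K f e2 := fun _ hx => ⟨e1, h, hx⟩

/-- Urysohn functions -/
lemma ury (M : ℕ) {K : Set ℂ} {σ1 σ2 B : ℝ} (h1 : 0 < σ1) (hK : K ⊆ rect σ1 σ2 B) (f : ℂ → ℂ)
    {e1 e2 : ℝ} (he : e1 < e2) : ∃ g : C(UnitAddTorus (Fin (kk M)), ℝ),
      (∀ x, 0 ≤ g x) ∧ (∀ x, g x ≤ 1) ∧ (∀ x ∈ Cl M K f e1, g x = 1) ∧
      (∀ x, x ∉ Op M K f e2 → g x = 0) := by
  have hK0 : ∀ s ∈ K, 0 < s.re := fun s hs => h1.trans_le (hK hs).1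
  obtain ⟨g, hg0, hg1, hg⟩ := exists_continuous_zero_one_of_isClosed
    (X := UnitAddTorus (Fin (kk M))) (Op_open M h1 hK f e2).isClosed_compl
    (Cl_closed M hK0 f e1) (by
      rw [Set.disjoint_left]
      intro x hx hx'
      exact hx (Cl_sub_Op M K f he hx'))
  exact ⟨g, fun x => (hg x).1, fun x => (hg x).2, fun x hx => hg1 hx, fun x hx => hg0 hx⟩

/-- the measure of `Op` is at least the mean of the Urysohn function -/
lemma Op_meas (M : ℕ) {K : Set ℂ} {σ1 σ2 B : ℝ} (h1 : 0 < σ1) (hK : K ⊆ rect σ1 σ2 B) (f : ℂ → ℂ)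
    {e2 : ℝ} {g : C(UnitAddTorus (Fin (kk M)), ℝ)} (hg1 : ∀ x, g x ≤ 1)
    (hg : ∀ x, x ∉ Op M K f e2 → g x = 0) :
    ∫ x, g x ∂(haarT (kk M)) ≤ (haarT (kk M) (Op M K f e2)).toReal := by
  have hUm : MeasurableSet (Op M K f e2) := (Op_open M h1 hK f e2).measurableSet
  have hind : ∫ x, (Op M K f e2).indicator (fun _ => (1 : ℝ)) x ∂(haarT (kk M)) =
      (haarT (kk M) (Op M K f e2)).toReal := by
    rw [integral_indicator hUm]; simp [Measure.real]
  rw [← hind]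
  refine integral_mono (g.continuous.integrable_of_hasCompactSupport
    (HasCompactSupport.of_compactSpace _)) ((integrable_const (1 : ℝ)).indicator hUm) ?_
  intro x
  by_cases hx : x ∈ Op M K f e2
  · rw [Set.indicator_of_mem hx]; exact hg1 x
  · rw [Set.indicator_of_notMem hx]; exact (hg x hx).le

/-- time average of a continuous function on the torus along the line -/
lemma time_mean {φ : ℝ → ℝ} {m : ℝ} (hφ : APm φ m) (hc : Continuous φ) {η : ℝ} (hη : 0 < η) :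
    ∃ T0 : ℝ, 0 < T0 ∧ ∀ T ≥ T0, |(∫ t in (0 : ℝ)..T, φ t) - m * T| ≤ η * T := by
  obtain ⟨S, c, h0, h1, h2⟩ := hφ (η / 3) (by positivity)
  have h3 := tp_mean c h0
  have h4 : ∀ᶠ T : ℝ in atTop, |(∫ t in (0 : ℝ)..T, tp S c t) / T - (c 0).re| < η / 3 := by
    have := (Metric.tendsto_nhds.1 h3) (η / 3) (by positivity)
    simpa only [Real.dist_eq] using this
  obtain ⟨T1, hT1⟩ := (h4.and (eventually_gt_atTop 0)).exists_forall_of_atTop
  refine ⟨max T1 1, by positivity, fun T hT => ?_⟩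
  obtain ⟨h5, hT0⟩ := hT1 T ((le_max_left _ _).trans hT)
  have h6 : |(∫ t in (0 : ℝ)..T, tp S c t) - (c 0).re * T| ≤ η / 3 * T := by
    have e : (∫ t in (0 : ℝ)..T, tp S c t) - (c 0).re * T =
        ((∫ t in (0 : ℝ)..T, tp S c t) / T - (c 0).re) * T := by field_simp
    rw [e, abs_mul, abs_of_pos hT0]
    exact mul_le_mul_of_nonneg_right h5.le hT0.le
  have h7 : |(∫ t in (0 : ℝ)..T, φ t) - ∫ t in (0 : ℝ)..T, tp S c t| ≤ η / 3 * T := by
    rw [← intervalIntegral.integral_sub (hc.intervalIntegrable _ _)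
      ((tp_cont S c).intervalIntegrable _ _)]
    have h8 := intervalIntegral.norm_integral_le_of_norm_le_const (a := 0) (b := T)
      (f := fun t => φ t - tp S c t) (C := η / 3) (fun t _ => by
        rw [Real.norm_eq_abs]; exact h1 t)
    rw [sub_zero, abs_of_pos hT0, Real.norm_eq_abs] at h8
    exact h8
  have h9 : |((c 0).re - m) * T| ≤ η / 3 * T := by
    rw [abs_mul, abs_of_pos hT0]
    exact mul_le_mul_of_nonneg_right h2 hT0.le
  have e : (∫ t in (0 : ℝ)..T, φ t) - m * T = ((∫ t in (0 : ℝ)..T, φ t) -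
      ∫ t in (0 : ℝ)..T, tp S c t) + (((∫ t in (0 : ℝ)..T, tp S c t) - (c 0).re * T) +
        ((c 0).re - m) * T) := by ring
  rw [e]
  refine (abs_add_le _ _).trans ?_
  have := abs_add_le ((∫ t in (0 : ℝ)..T, tp S c t) - (c 0).re * T) (((c 0).re - m) * T)
  linarith

end Pool.Agent.Q286.UZ
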