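import Pool.Agent.TH803.UC.Jord
import Pool.Agent.TH803.UC.Sets
import Pool.Agent.Y834.UT.Rare
import Pool.Agent.Helper240.ZU.F

/-!
The shifts (and the ordinates of zeros) for which a partial Euler product does not approximate
zeta on a rectangle are rare.
-/

set_option autoImplicit false
set_option linter.all false

namespace Pool.Agent.Q286.UZ

open Complex Filter Topology Set MeasureTheory ZU H370 H370.A2 H370.AS H295SI TH803TW TH803UC

/-- `ζ(z) ∏_{p ≤ M} (1 - p^{-z}) - 1` -/
noncomputable def GG (M : ℕ) (z : ℂ) : ℂ := riemannZeta z * EM M (fun _ => 1) z - 1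

/-- the exceptional shifts -/
def Bad (M : ℕ) (a b B θ : ℝ) (t : ℝ) : Prop := ∃ s ∈ rect a b B, θ ≤ ‖GG M (s + t * I)‖

lemma GG_diff (M : ℕ) (z : ℂ) (hz : z.re < 1) : DifferentiableAt ℂ (GG M) z := by
  have hz1 : z ≠ 1 := by
    intro h
    rw [h, Complex.one_re] at hz
    exact lt_irrefl _ hz
  exact ((differentiableAt_riemannZeta hz1).mul (Pool.Agent.Y834.UT.EM_diff M _ z)).sub_const 1

lemma GG_cont (M : ℕ) {a b : ℝ} (hb : b < 1) :
    ContinuousOn (GG M) {z : ℂ | a ≤ z.re ∧ z.re ≤ b} := fun z hz =>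
  (GG_diff M z (lt_of_le_of_lt hz.2 hb)).continuousAt.continuousWithinAt

/-- area mean square -/
noncomputable def AA2 (M : ℕ) (a b B : ℝ) (t : ℝ) : ℝ := ∫ z in rect a b B, ‖GG M (z + t * I)‖ ^ 2

lemma AA2_nonneg (M : ℕ) (a b B t : ℝ) : 0 ≤ AA2 M a b B t :=
  integral_nonneg fun z => by positivity

/-- the mean value of the area mean square -/
lemma area_mv (M : ℕ) {a b B : ℝ} (h0 : 1 / 2 < a) (h1 : a ≤ b) (h2 : b < 1) (hB : 0 < B) {δ : ℝ}
    (hδ : 0 < δ) : ∃ T0 : ℝ, 0 < T0 ∧ ∀ T ≥ T0, Continuous (AA2 M a b B) ∧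
      ∫ t in (0 : ℝ)..T, AA2 M a b B t ≤ (b - a) * (2 * B) * (T * (4 * tail a M + δ)) := by
  obtain ⟨T3, hT3, hT3'⟩ := rough_mv a b h0 h1 h2 B hB M {1}
    (by
      intro n hn
      rw [Finset.mem_singleton] at hn
      subst hn
      exact ⟨le_rfl, fun p hp h => absurd (Nat.dvd_one.1 h) hp.one_lt.ne'⟩)
    (fun _ => 1) (by simp) δ hδ
  have hDir : ∀ t : ℝ, Dir {1} (fun _ => 1) t = 1 := by
    intro t
    unfold Dir
    simp
  refine ⟨T3, hT3, fun T hT => ?_⟩
  have hT0 : 0 < T := hT3.trans_le hT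
  have hfub := fubini_bound a b B h1 hB (GG M) (GG_cont M h2) (fun _ => 1)
    continuous_const T hT0.le (T * (4 * tail a M + δ)) (by
      intro s hs
      have h := hT3' T hT s hs
      simp only [hDir, norm_one, one_pow, Finset.card_singleton, Nat.cast_one, one_mul] at h
      simp only [one_mul]
      exact h)
  refine ⟨hfub.1, ?_⟩
  have h := hfub.2
  simp only [one_mul] at h
  exact h

/-- the sup norm on the rectangle is bounded by the area mean square -/
lemma bad_area {a b a' b' B B' : ℝ} (h1 : a' < a) (h2 : a ≤ b) (h3 : b < b') (h3' : b' < 1)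
    (h4 : 0 < B) (h5 : B < B') : ∃ C : ℝ, 0 < C ∧ ∀ (M : ℕ) (θ t : ℝ), 0 < θ → Bad M a b B θ t →
      1 ≤ C / θ ^ 2 * AA2 M a' b' B' t := by
  obtain ⟨C, hC, hCs⟩ := sup_le_area a b a' b' B B' h1 h2 h3 h4 h5
  refine ⟨C, hC, fun M θ t hθ => ?_⟩
  rintro ⟨s, hs, hst⟩
  have hre : ∀ z : ℂ, (z + t * I).re = z.re := by
    intro z
    simp
  have h6 := hCs (fun z => GG M (z + t * I)) {z : ℂ | z.re < 1}
    (isOpen_lt Complex.continuous_re continuous_const)
    (fun z hz => lt_of_le_of_lt hz.2.1 h3')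
    (fun z hz => by
      have hz' : (z + t * I).re < 1 := by
        rw [hre]; exact hz
      have h7 : DifferentiableAt ℂ (fun z : ℂ => GG M (z + t * I)) z :=
        DifferentiableAt.comp z (GG_diff M _ hz') (differentiableAt_id.add_const _)
      exact h7.differentiableWithinAt) s hs
  have h7 : θ ^ 2 ≤ C * AA2 M a' b' B' t := by
    refine le_trans ?_ h6
    exact pow_le_pow_left₀ hθ.le hst 2
  rw [div_mul_eq_mul_div, one_le_div (by positivity)]
  exact h7

/-- the exceptional shifts are rare -/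
theorem exc_time {a b B : ℝ} (h1 : 1 / 2 < a) (h2 : a ≤ b) (h3 : b < 1) (hB : 0 < B) {θ η : ℝ}
    (hθ : 0 < θ) (hη : 0 < η) : ∃ M0 : ℕ, ∀ M ≥ M0, ∃ T0 : ℝ, 0 < T0 ∧ ∀ T ≥ T0,
      volume {t : ℝ | t ∈ Icc 0 T ∧ Bad M a b B θ t} ≤ ENNReal.ofReal (η * T) := by
  set a' : ℝ := (1 / 2 + a) / 2 with ha'
  set b' : ℝ := (b + 1) / 2 with hb'
  have h0' : 1 / 2 < a' := by rw [ha']; linarith
  have h1' : a' < a := by rw [ha']; linarith
  have h3' : b < b' := by rw [hb']; linarith
  have h4' : b' < 1 := by rw [hb']; linarith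
  obtain ⟨C, hC, hCs⟩ := bad_area h1' h2 h3' h4' hB (show B < B + 1 by linarith)
  have hB' : 0 < B + 1 := by linarith
  have hba : 0 < b' - a' := by linarith
  set κ : ℝ := C / θ ^ 2 * ((b' - a') * (2 * (B + 1))) with hκ
  have hκ0 : 0 < κ := by positivity
  obtain ⟨M0, hM0⟩ : ∃ M0 : ℕ, ∀ M ≥ M0, tail a' M < η / (8 * κ) := by
    have := (tail_tendsto a' h0').1
    exact (this.eventually (gt_mem_nhds (show (0:ℝ) < η / (8 * κ) by positivity))).exists_forall_of_atTop
  refine ⟨M0, fun M hMM => ?_⟩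
  have hM := hM0 M hMM
  obtain ⟨T3, hT3, hT3'⟩ := area_mv M h0' (show a' ≤ b' by linarith) h4' hB'
    (show 0 < η / (4 * κ) by positivity)
  refine ⟨T3, hT3, fun T hT => ?_⟩
  have hT0 : 0 < T := hT3.trans_le hT
  obtain ⟨hAc, hint⟩ := hT3' T hT
  set A := AA2 M a' b' (B + 1) with hA
  have hA0 : ∀ t, 0 ≤ A t := AA2_nonneg M a' b' (B + 1)
  have hsub : {t : ℝ | t ∈ Icc 0 T ∧ Bad M a b B θ t} ⊆
      {t : ℝ | 1 ≤ C / θ ^ 2 * A t} ∩ Icc 0 T := by
    rintro t ⟨ht, hb⟩
    exact ⟨hCs M θ t hθ hb, ht⟩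
  refine (measure_mono hsub).trans ?_
  have hCθ : 0 < C / θ ^ 2 := by positivity
  have hmark : ENNReal.ofReal 1 * volume ({t : ℝ | 1 ≤ C / θ ^ 2 * A t} ∩ Icc 0 T) ≤
      ENNReal.ofReal (∫ t in Icc 0 T, C / θ ^ 2 * A t) := by
    have h := mul_meas_ge_le_integral_of_nonneg (μ := volume.restrict (Icc (0 : ℝ) T))
      (f := fun t => C / θ ^ 2 * A t) (Eventually.of_forall fun t => mul_nonneg hCθ.le (hA0 t))
      ((continuous_const.mul hAc).integrableOn_Icc) 1
    have hms : MeasurableSet {t : ℝ | 1 ≤ C / θ ^ 2 * A t} :=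
      (isClosed_le continuous_const (continuous_const.mul hAc)).measurableSet
    have e1 : (volume.restrict (Icc (0 : ℝ) T)) {t : ℝ | 1 ≤ C / θ ^ 2 * A t} =
        volume ({t : ℝ | 1 ≤ C / θ ^ 2 * A t} ∩ Icc 0 T) := Measure.restrict_apply hms
    have hfin : volume ({t : ℝ | 1 ≤ C / θ ^ 2 * A t} ∩ Icc 0 T) ≠ ⊤ :=
      ((measure_mono inter_subset_right).trans_lt (by
        rw [Real.volume_Icc]
        exact ENNReal.ofReal_lt_top)).ne
    rw [one_mul, Measure.real, e1] at h
    rw [ENNReal.ofReal_one, one_mul]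
    exact (ENNReal.le_ofReal_iff_toReal_le hfin (integral_nonneg fun t =>
      mul_nonneg hCθ.le (hA0 t))).2 h
  rw [ENNReal.ofReal_one, one_mul] at hmark
  refine hmark.trans (ENNReal.ofReal_le_ofReal ?_)
  rw [integral_Icc_eq_integral_Ioc, ← intervalIntegral.integral_of_le hT0.le,
    intervalIntegral.integral_const_mul]
  calc C / θ ^ 2 * ∫ t in (0 : ℝ)..T, A t ≤ C / θ ^ 2 * ((b' - a') * (2 * (B + 1)) *
        (T * (4 * tail a' M + η / (4 * κ)))) := by gcongr
    _ = T * (4 * (κ * tail a' M) + κ * (η / (4 * κ))) := by rw [hκ]; ring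
    _ ≤ T * (4 * (η / 8) + η / 4) := by
        have h8 : κ * tail a' M ≤ η / 8 := by
          have h9 := mul_le_mul_of_nonneg_left hM.le hκ0.le
          have h10 : κ * (η / (8 * κ)) = η / 8 := by field_simp
          linarith
        have h11 : κ * (η / (4 * κ)) = η / 4 := by field_simp
        rw [h11]
        have := mul_le_mul_of_nonneg_left (show 4 * (κ * tail a' M) + η / 4 ≤ 4 * (η / 8) + η / 4 by
          linarith) hT0.le
        linarith
    _ ≤ η * T := by
        have : 0 < η * T := by positivity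
        nlinarith

/-- translation -/
lemma AA2_shift (M : ℕ) {a b B : ℝ} (h2 : b < 1) {t u : ℝ} (htu : |u - t| ≤ 1) :
    AA2 M a b B t ≤ AA2 M a b (B + 1) u := by
  have hR : ∀ B' : ℝ, IsCompact (rect a b B') := fun B' => ZU.J_f.isCompact_rectV a b B'
  have hi : ∀ (B' t' : ℝ), IntegrableOn (fun z : ℂ => ‖GG M (z + t' * I)‖ ^ 2) (rect a b B') := by
    intro B' t'
    refine ContinuousOn.integrableOn_compact (hR B') ?_
    refine ContinuousOn.pow (ContinuousOn.norm ?_) 2
    refine (GG_cont M (a := a) h2).comp (by fun_prop) ?_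
    intro z hz
    have hre : (z + t' * I).re = z.re := by simp
    exact ⟨by rw [hre]; exact hz.1, by rw [hre]; exact hz.2.1⟩
  unfold AA2
  rw [← integral_indicator (hR B).measurableSet, ← integral_indicator (hR (B + 1)).measurableSet]
  rw [← integral_add_right_eq_self _ ((u - t : ℝ) * I : ℂ)]
  refine integral_mono ?_ ?_ ?_
  · exact ((integrable_indicator_iff (hR B).measurableSet).2 (hi B t)).comp_add_right _
  · exact (integrable_indicator_iff (hR (B + 1)).measurableSet).2 (hi (B + 1) u)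
  · intro z
    beta_reduce
    by_cases hz : z + (u - t : ℝ) * I ∈ rect a b B
    · have hz2 : z ∈ rect a b (B + 1) := by
        obtain ⟨k1, k2, k3⟩ := hz
        have hre : (z + ((u - t : ℝ) : ℂ) * I).re = z.re := by simp
        have him : (z + ((u - t : ℝ) : ℂ) * I).im = z.im + (u - t) := by simp
        rw [hre] at k1 k2
        rw [him] at k3
        refine ⟨k1, k2, ?_⟩
        have : z.im = (z.im + (u - t)) - (u - t) := by ring
        rw [this]
        exact (abs_sub _ _).trans (by linarith)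
      rw [Set.indicator_of_mem hz, Set.indicator_of_mem hz2]
      have e : z + ((u - t : ℝ) : ℂ) * I + (t : ℂ) * I = z + (u : ℂ) * I := by push_cast; ring
      simp only [e]
      exact le_rfl
    · rw [Set.indicator_of_notMem hz]
      exact Set.indicator_nonneg (fun _ _ => by positivity) z

/-- the ordinates of zeros which are exceptional are rare -/
theorem exc_zero {a b B : ℝ} (h1 : 1 / 2 < a) (h2 : a ≤ b) (h3 : b < 1) (hB : 0 < B) {θ η : ℝ}
    (hθ : 0 < θ) (hη : 0 < η) : ∃ M0 : ℕ, ∀ M ≥ M0, ∃ T0 : ℝ, 10 ≤ T0 ∧ ∀ T ≥ T0,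
      NU riemannZeta T (2 * T) (Bad M a b B θ) ≤ η * NN riemannZeta T (2 * T) := by
  classical
  set a' : ℝ := (1 / 2 + a) / 2 with ha'
  set b' : ℝ := (b + 1) / 2 with hb'
  have h0' : 1 / 2 < a' := by rw [ha']; linarith
  have h1' : a' < a := by rw [ha']; linarith
  have h3' : b < b' := by rw [hb']; linarith
  have h4' : b' < 1 := by rw [hb']; linarith
  obtain ⟨C, hC, hCs⟩ := bad_area h1' h2 h3' h4' hB (show B < B + 1 by linarith)
  obtain ⟨C1, hC1, hZ⟩ := Zg_le good_zeta
  obtain ⟨T1, hT1, hN⟩ := NN_low good_zeta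
  have hB' : 0 < B + 1 + 1 := by linarith
  have hba : 0 < b' - a' := by linarith
  set κ : ℝ := C / θ ^ 2 * (2 * C1) * ((b' - a') * (2 * (B + 1 + 1))) * 21 with hκ
  have hκ0 : 0 < κ := by positivity
  obtain ⟨M0, hM0⟩ : ∃ M0 : ℕ, ∀ M ≥ M0, tail a' M < η / (8 * κ) := by
    have := (tail_tendsto a' h0').1
    exact (this.eventually (gt_mem_nhds (show (0:ℝ) < η / (8 * κ) by positivity))).exists_forall_of_atTop
  refine ⟨M0, fun M hMM => ?_⟩
  have hM := hM0 M hMM
  obtain ⟨T3, hT3, hT3'⟩ := area_mv M h0' (show a' ≤ b' by linarith) h4' hB'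
    (show 0 < η / (4 * κ) by positivity)
  refine ⟨max T1 T3, hT1.trans (le_max_left _ _), fun T hT => ?_⟩
  have hTT1 : T1 ≤ T := (le_max_left _ _).trans hT
  have hTT3 : T3 ≤ 2 * T + 1 := by
    have := (le_max_right T1 T3).trans hT
    linarith
  have hT10 : 10 ≤ T := hT1.trans hTT1
  obtain ⟨hAc, hint⟩ := hT3' (2 * T + 1) hTT3
  have hlow := hN T hTT1
  set A2 := AA2 M a' b' (B + 1 + 1) with hA2
  have hA20 : ∀ t, 0 ≤ A2 t := AA2_nonneg M a' b' (B + 1 + 1)
  have hL : 0 ≤ Real.log T := Real.log_nonneg (by linarith)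
  have hU : 1 ≤ T := by linarith
  have hCθ : 0 < C / θ ^ 2 := by positivity
  -- each zero
  have hz : ∀ s ∈ Zf riemannZeta T (2 * T), AA2 M a' b' (B + 1) s.im ≤
      ∫ u in (0 : ℝ)..(2 * T + 1), 2 * (Real.exp (-(s.im - u) ^ 2 / 2) * A2 u) := by
    intro s hs
    rw [mem_Zf good_zeta hU] at hs
    have hs1 := hs.2.2.1
    have hs2 := hs.2.2.2.1
    have hcf : Continuous fun u : ℝ => 2 * (Real.exp (-(s.im - u) ^ 2 / 2) * A2 u) := by
      fun_prop
    have hf0 : ∀ u : ℝ, 0 ≤ 2 * (Real.exp (-(s.im - u) ^ 2 / 2) * A2 u) := fun u => by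
      have := hA20 u
      positivity
    have k1 : AA2 M a' b' (B + 1) s.im = ∫ u in s.im..(s.im + 1), AA2 M a' b' (B + 1) s.im := by
      rw [intervalIntegral.integral_const]
      simp
    have k2 : ∫ u in s.im..(s.im + 1), AA2 M a' b' (B + 1) s.im ≤
        ∫ u in s.im..(s.im + 1), 2 * (Real.exp (-(s.im - u) ^ 2 / 2) * A2 u) := by
      refine intervalIntegral.integral_mono_on (by linarith) intervalIntegrable_const
        (hcf.intervalIntegrable _ _) ?_
      intro u hu
      have k3 : AA2 M a' b' (B + 1) s.im ≤ A2 u := by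
        refine AA2_shift M h4' ?_
        rw [abs_le]
        constructor <;> linarith [hu.1, hu.2]
      have k4 : (1 : ℝ) / 2 ≤ Real.exp (-(s.im - u) ^ 2 / 2) := by
        have k5 : -(1 / 2 : ℝ) ≤ -(s.im - u) ^ 2 / 2 := by nlinarith [hu.1, hu.2]
        have k6 := Real.add_one_le_exp (-(s.im - u) ^ 2 / 2)
        linarith
      have k7 := hA20 u
      have k8 : (1 / 2 : ℝ) * A2 u ≤ Real.exp (-(s.im - u) ^ 2 / 2) * A2 u :=
        mul_le_mul_of_nonneg_right k4 k7
      linarith
    rw [k1]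
    refine k2.trans ?_
    refine intervalIntegral.integral_mono_interval (by linarith) (by linarith) (by linarith)
      (Eventually.of_forall hf0) (hcf.intervalIntegrable _ _)
  have hsum : ∑ s ∈ Zf riemannZeta T (2 * T), (mult riemannZeta s : ℝ) * AA2 M a' b' (B + 1) s.im ≤
      2 * (C1 * Real.log T) * ∫ u in (0 : ℝ)..(2 * T + 1), A2 u := by
    have k1 : ∑ s ∈ Zf riemannZeta T (2 * T),
        (mult riemannZeta s : ℝ) * AA2 M a' b' (B + 1) s.im ≤
        ∑ s ∈ Zf riemannZeta T (2 * T), (mult riemannZeta s : ℝ) *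
          ∫ u in (0 : ℝ)..(2 * T + 1), 2 * (Real.exp (-(s.im - u) ^ 2 / 2) * A2 u) := by
      refine Finset.sum_le_sum fun s hs => ?_
      exact mul_le_mul_of_nonneg_left (hz s hs) (Nat.cast_nonneg _)
    refine k1.trans ?_
    have k2 : ∑ s ∈ Zf riemannZeta T (2 * T), (mult riemannZeta s : ℝ) *
          ∫ u in (0 : ℝ)..(2 * T + 1), 2 * (Real.exp (-(s.im - u) ^ 2 / 2) * A2 u) =
        ∫ u in (0 : ℝ)..(2 * T + 1), 2 * (Zg riemannZeta T (2 * T) u * A2 u) := by
      simp_rw [← intervalIntegral.integral_const_mul]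
      rw [← intervalIntegral.integral_finsetSum]
      · refine intervalIntegral.integral_congr fun u _ => ?_
        simp only [Zg, Finset.sum_mul, Finset.mul_sum]
        refine Finset.sum_congr rfl fun s _ => ?_
        ring
      · intro s _
        apply Continuous.intervalIntegrable
        fun_prop
    rw [k2, ← intervalIntegral.integral_const_mul]
    have hZc : Continuous fun u => Zg riemannZeta T (2 * T) u := by
      unfold Zg
      fun_prop
    refine intervalIntegral.integral_mono_on (by linarith) ?_ ?_ ?_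
    · apply Continuous.intervalIntegrable
      fun_prop
    · apply Continuous.intervalIntegrable
      fun_prop
    · intro u _
      have k3 := hZ T (by linarith) T (2 * T) le_rfl le_rfl u
      have k4 := mul_le_mul_of_nonneg_right k3 (hA20 u)
      linarith
  have hNU : NU riemannZeta T (2 * T) (Bad M a b B θ) ≤ C / θ ^ 2 *
      ∑ s ∈ Zf riemannZeta T (2 * T), (mult riemannZeta s : ℝ) * AA2 M a' b' (B + 1) s.im := by
    unfold NU
    rw [Finset.sum_filter, Finset.mul_sum]
    refine Finset.sum_le_sum fun s _ => ?_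
    have hm : (0 : ℝ) ≤ mult riemannZeta s := Nat.cast_nonneg _
    have hA0 := AA2_nonneg M a' b' (B + 1) s.im
    split_ifs with hb
    · have k1 := hCs M θ s.im hθ hb
      calc (mult riemannZeta s : ℝ) = (mult riemannZeta s : ℝ) * 1 := (mul_one _).symm
        _ ≤ (mult riemannZeta s : ℝ) * (C / θ ^ 2 * AA2 M a' b' (B + 1) s.im) :=
            mul_le_mul_of_nonneg_left k1 hm
        _ = _ := by ring
    · positivity
  refine hNU.trans ?_
  have hNN0 : (0 : ℝ) ≤ NN riemannZeta T (2 * T) := Nat.cast_nonneg _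
  have htail0 : 0 ≤ 4 * tail a' M + η / (4 * κ) := by
    have h5 := (tail_tendsto a' h0').2 M ∅ (by simp)
    simp only [Finset.sum_empty] at h5
    positivity
  have hLT : 2 * (C1 * Real.log T) * ∫ u in (0 : ℝ)..(2 * T + 1), A2 u ≤
      2 * C1 * ((b' - a') * (2 * (B + 1 + 1))) * (21 * NN riemannZeta T (2 * T)) *
        (4 * tail a' M + η / (4 * κ)) := by
    have k1 : 2 * (C1 * Real.log T) * ∫ u in (0 : ℝ)..(2 * T + 1), A2 u ≤
        2 * (C1 * Real.log T) * ((b' - a') * (2 * (B + 1 + 1)) *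
          ((2 * T + 1) * (4 * tail a' M + η / (4 * κ)))) :=
      mul_le_mul_of_nonneg_left hint (by positivity)
    refine k1.trans ?_
    have k2 : Real.log T * (2 * T + 1) ≤ 21 * NN riemannZeta T (2 * T) := by
      have k3 : Real.log T * (2 * T + 1) ≤ Real.log T * (3 * T) :=
        mul_le_mul_of_nonneg_left (by linarith) hL
      linarith
    have k4 : 2 * (C1 * Real.log T) * ((b' - a') * (2 * (B + 1 + 1)) *
          ((2 * T + 1) * (4 * tail a' M + η / (4 * κ)))) =
        2 * C1 * ((b' - a') * (2 * (B + 1 + 1))) * (Real.log T * (2 * T + 1)) *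
          (4 * tail a' M + η / (4 * κ)) := by ring
    rw [k4]
    gcongr
  calc C / θ ^ 2 * ∑ s ∈ Zf riemannZeta T (2 * T),
        (mult riemannZeta s : ℝ) * AA2 M a' b' (B + 1) s.im ≤
      C / θ ^ 2 * (2 * C1 * ((b' - a') * (2 * (B + 1 + 1))) * (21 * NN riemannZeta T (2 * T)) *
        (4 * tail a' M + η / (4 * κ))) :=
      mul_le_mul_of_nonneg_left (hsum.trans hLT) hCθ.le
    _ = (4 * (κ * tail a' M) + κ * (η / (4 * κ))) * NN riemannZeta T (2 * T) := by
      rw [hκ]; ring
    _ ≤ η * NN riemannZeta T (2 * T) := by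
      apply mul_le_mul_of_nonneg_right _ hNN0
      have h8 : κ * tail a' M ≤ η / 8 := by
        have h9 := mul_le_mul_of_nonneg_left hM.le hκ0.le
        have h10 : κ * (η / (8 * κ)) = η / 8 := by field_simp
        linarith
      have h11 : κ * (η / (4 * κ)) = η / 4 := by field_simp
      rw [h11]
      linarith

end Pool.Agent.Q286.UZ
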