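import Pool.Agent.Q286.UZ.Tor
import Pool.Agent.Q286.UZ.Exc
import Pool.Agent.Y834.UT.Conv

/-!
The key comparison: shifts, ordinates of zeros and simple zeros on the critical line.
-/

set_option autoImplicit false
set_option linter.all false

namespace Pool.Agent.Q286.UZ

open Complex Filter Topology Set MeasureTheory ZU H370 H370.A2 H370.AS H295SI TH803TW TH803UC
open Pool.Agent.Y834.UT (SS)

/-- ordinates of simple zeros on the critical line -/
def SC (A B : ℝ) : Set ℝ := {t : ℝ | A < t ∧ t ≤ B ∧ riemannZeta (1 / 2 + I * t) = 0 ∧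
  deriv riemannZeta (1 / 2 + I * t) ≠ 0}

lemma half_inj : Function.Injective fun t : ℝ => (1 / 2 + I * t : ℂ) := by
  intro a b hab
  have := congrArg Complex.im hab
  simpa using this

lemma SC_fin {A B : ℝ} (hA : 1 ≤ A) : (SC A B).Finite := by
  refine Set.Finite.of_finite_image ((zset_finite' good_zeta A B (by linarith)).subset ?_)
    half_inj.injOn
  rintro s ⟨t, ⟨h1, h2, h3, h4⟩, rfl⟩
  refine ⟨?_, ?_, ?_, ?_, h3⟩ <;> simp <;> first | assumption | norm_num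

lemma mult_pos {A B : ℝ} (hA : 1 ≤ A) {s : ℂ} (hs : s ∈ Zf riemannZeta A B) :
    (1 : ℝ) ≤ mult riemannZeta s := by
  rw [mem_Zf good_zeta hA] at hs
  obtain ⟨h1, h2, h3, h4, h5⟩ := hs
  have hs1 : s ≠ 1 := by
    intro h
    rw [h] at h2
    norm_num at h2
  have ha := zeta_analytic hs1
  have h6 : mult riemannZeta s ≠ 0 := by
    intro h0
    unfold mult analyticOrderNatAt at h0
    rw [ENat.toNat_eq_zero] at h0
    rcases h0 with h0 | h0
    · exact (ha.analyticOrderAt_eq_zero.1 h0) h5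
    · -- not identically zero near s
      have h7 := good_zeta.nzr (⟨2, s.im⟩ : ℂ) (by norm_num) (by show 1 ≤ s.im; linarith)
      have hfin : analyticOrderAt riemannZeta s ≠ ⊤ := by
        have hU : IsPreconnected {z : ℂ | 0 < z.im} :=
          (convex_halfSpace_im_gt 0).isPreconnected
        have han : AnalyticOnNhd ℂ riemannZeta {z : ℂ | 0 < z.im} := fun z hz => good_zeta.an z hz
        intro htop
        rw [analyticOrderAt_eq_top] at htop
        have h8 := han.eqOn_zero_of_preconnected_of_eventuallyEq_zero hU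
          (show s ∈ {z : ℂ | 0 < z.im} by show 0 < s.im; linarith) htop
        exact h7 (h8 (show (⟨2, s.im⟩ : ℂ) ∈ {z : ℂ | 0 < z.im} by show 0 < s.im; linarith))
      exact hfin h0
  have : 1 ≤ mult riemannZeta s := Nat.one_le_iff_ne_zero.2 h6
  exact_mod_cast this

lemma SC_le_NU {A B : ℝ} (hA : 1 ≤ A) (P : ℝ → Prop) :
    ({t : ℝ | t ∈ SC A B ∧ P t}.ncard : ℝ) ≤ NU riemannZeta A B P := by
  classical
  have h1 : ({t : ℝ | t ∈ SC A B ∧ P t}.ncard : ℝ) ≤
      (((Zf riemannZeta A B).filter (fun s => P s.im)).card : ℝ) := by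
    rw [← Set.ncard_image_of_injective _ half_inj, ← Set.ncard_coe_finset]
    have hfin : ((((Zf riemannZeta A B).filter (fun s => P s.im)) : Finset ℂ) : Set ℂ).Finite :=
      Finset.finite_toSet _
    have := Set.ncard_le_ncard (s := (fun t : ℝ => (1 / 2 + I * t : ℂ)) ''
      {t : ℝ | t ∈ SC A B ∧ P t}) (t := ((((Zf riemannZeta A B).filter (fun s => P s.im)) :
        Finset ℂ) : Set ℂ)) (by
        rintro s ⟨t, ⟨⟨h1, h2, h3, h4⟩, h5⟩, rfl⟩
        rw [Finset.mem_coe, Finset.mem_filter, mem_Zf good_zeta hA]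
        have him : (1 / 2 + I * (t : ℂ) : ℂ).im = t := by simp
        have hre : (1 / 2 + I * (t : ℂ) : ℂ).re = 1 / 2 := by simp
        refine ⟨⟨?_, ?_, ?_, ?_, h3⟩, ?_⟩
        · rw [hre]; norm_num
        · rw [hre]; norm_num
        · rw [him]; exact h1
        · rw [him]; exact h2
        · show P (1 / 2 + I * (t : ℂ) : ℂ).im
          rw [him]; exact h5) hfin
    exact_mod_cast this
  refine h1.trans ?_
  unfold NU
  rw [Finset.card_eq_sum_ones, Nat.cast_sum]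
  refine Finset.sum_le_sum fun s hs => ?_
  rw [Nat.cast_one]
  exact mult_pos hA (Finset.mem_filter.1 hs).1

lemma NU_le_add (F : ℂ → ℂ) (A B : ℝ) {P Q R : ℝ → Prop} (h : ∀ t, P t → Q t ∨ R t) :
    NU F A B P ≤ NU F A B Q + NU F A B R := by
  classical
  unfold NU
  rw [Finset.sum_filter, Finset.sum_filter, Finset.sum_filter, ← Finset.sum_add_distrib]
  refine Finset.sum_le_sum fun s _ => ?_
  have hm : (0 : ℝ) ≤ mult F s := Nat.cast_nonneg _
  by_cases hP : P s.im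
  · rcases h _ hP with hQ | hR
    · rw [if_pos hP, if_pos hQ]
      split_ifs <;> linarith
    · rw [if_pos hP, if_pos hR]
      split_ifs <;> linarith
  · rw [if_neg hP]
    split_ifs <;> linarith

lemma NU_nonneg (F : ℂ → ℂ) (A B : ℝ) (P : ℝ → Prop) : 0 ≤ NU F A B P := by
  classical
  unfold NU
  exact Finset.sum_nonneg fun s _ => Nat.cast_nonneg _

lemma NU_le_MW (F : ℂ → ℂ) (A B : ℝ) {P : ℝ → Prop} {φ : ℝ → ℝ} (h0 : ∀ t, 0 ≤ φ t)
    (h : ∀ t, P t → 1 ≤ φ t) : NU F A B P ≤ MW F A B φ := by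
  classical
  unfold NU MW
  rw [Finset.sum_filter]
  refine Finset.sum_le_sum fun s _ => ?_
  have hm : (0 : ℝ) ≤ mult F s := Nat.cast_nonneg _
  split_ifs with hP
  · exact le_mul_of_one_le_right hm (h _ hP)
  · exact mul_nonneg hm (h0 _)

lemma MW_le_NU (F : ℂ → ℂ) (A B : ℝ) {P : ℝ → Prop} {φ : ℝ → ℝ} (h1 : ∀ t, φ t ≤ 1)
    (h : ∀ t, ¬ P t → φ t ≤ 0) : MW F A B φ ≤ NU F A B P := by
  classical
  unfold NU MW
  rw [Finset.sum_filter]
  refine Finset.sum_le_sum fun s _ => ?_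
  have hm : (0 : ℝ) ≤ mult F s := Nat.cast_nonneg _
  split_ifs with hP
  · exact mul_le_of_le_one_right hm (h1 _)
  · exact mul_nonpos_of_nonneg_of_nonpos hm (h _ hP)

lemma vol_le_int {φ : ℝ → ℝ} (hc : Continuous φ) (h0 : ∀ t, 0 ≤ φ t) {S : Set ℝ}
    (hS : MeasurableSet S) (h : ∀ t ∈ S, 1 ≤ φ t) {T : ℝ} (hT : 0 ≤ T) :
    volume (S ∩ Icc 0 T) ≤ ENNReal.ofReal (∫ t in (0 : ℝ)..T, φ t) := by
  have hfin : volume (S ∩ Icc 0 T) ≠ ⊤ :=
    ((measure_mono inter_subset_right).trans_lt (by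
      rw [Real.volume_Icc]
      exact ENNReal.ofReal_lt_top)).ne
  rw [ENNReal.le_ofReal_iff_toReal_le hfin
    (intervalIntegral.integral_nonneg hT fun t _ => h0 t)]
  have h1 : (volume (S ∩ Icc 0 T)).toReal = ∫ t in Icc (0 : ℝ) T, S.indicator (fun _ => (1 : ℝ)) t := by
    rw [integral_indicator hS, Measure.restrict_restrict hS]
    simp [Measure.real]
  rw [h1, intervalIntegral.integral_of_le hT, ← integral_Icc_eq_integral_Ioc]
  refine setIntegral_mono_on ?_ hc.integrableOn_Icc measurableSet_Icc ?_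
  · exact (integrableOn_const (by simp)).indicator hS
  · intro t _
    by_cases ht : t ∈ S
    · rw [Set.indicator_of_mem ht]; exact h t ht
    · rw [Set.indicator_of_notMem ht]; exact h0 t

lemma int_le_vol {φ : ℝ → ℝ} (hc : Continuous φ) (h1 : ∀ t, φ t ≤ 1) {S : Set ℝ}
    (hS : MeasurableSet S) (h : ∀ t, t ∉ S → φ t ≤ 0) {T : ℝ} (hT : 0 ≤ T) :
    ENNReal.ofReal (∫ t in (0 : ℝ)..T, φ t) ≤ volume (S ∩ Icc 0 T) := by
  have hfin : volume (S ∩ Icc 0 T) ≠ ⊤ :=
    ((measure_mono inter_subset_right).trans_lt (by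
      rw [Real.volume_Icc]
      exact ENNReal.ofReal_lt_top)).ne
  refine ENNReal.ofReal_le_of_le_toReal ?_
  have h2 : (volume (S ∩ Icc 0 T)).toReal = ∫ t in Icc (0 : ℝ) T, S.indicator (fun _ => (1 : ℝ)) t := by
    rw [integral_indicator hS, Measure.restrict_restrict hS]
    simp [Measure.real]
  rw [h2, intervalIntegral.integral_of_le hT, ← integral_Icc_eq_integral_Ioc]
  refine setIntegral_mono_on hc.integrableOn_Icc ?_ measurableSet_Icc ?_
  · exact (integrableOn_const (by simp)).indicator hS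
  · intro t _
    by_cases ht : t ∈ S
    · rw [Set.indicator_of_mem ht]; exact h1 t
    · rw [Set.indicator_of_notMem ht]; exact h t ht

lemma torusPt_cont {k : ℕ} (α : Fin k → ℝ) : Continuous (torusPt α) := by
  unfold torusPt
  refine continuous_pi fun j => ?_
  exact (AddCircle.continuous_mk' 1).comp (continuous_const.mul continuous_id)

/-- from shifts of zeta to Euler products -/
lemma trans1 {M : ℕ} {K : Set ℂ} {a b B θ ε1 e1 Cf t : ℝ} (ha : 0 < a) (hK : K ⊆ rect a b B)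
    {f : ℂ → ℂ} (hCf : ∀ s ∈ K, ‖f s‖ ≤ Cf) (hθ : 0 < θ) (hθ1 : θ ≤ 1 / 2) (hε1 : 0 < ε1)
    (hCf0 : 0 ≤ Cf) (he : 2 * (Cf + ε1) * θ ≤ e1 - ε1) (hb : ¬ Bad M a b B θ t)
    (ht : t ∈ SS ε1 K f) : torusPt (al M) t ∈ Cl M K f e1 := by
  obtain ⟨δ, hδ, h⟩ := ht
  intro s hs
  rw [EM_pt]
  have h1 := h s hs
  have hG : ‖GG M (s + t * I)‖ < θ := by
    by_contra hcon
    exact hb ⟨s, hK hs, not_lt.1 hcon⟩
  have hre : 0 < (s + t * I).re := by
    have : (s + t * I).re = s.re := by simp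
    rw [this]
    exact ha.trans_le (hK hs).1
  have hE0 : EM M (fun _ => 1) (s + t * I) ≠ 0 := EM_ne (fun _ => norm_one) hre
  set E := EM M (fun _ => 1) (s + t * I) with hE
  set z := riemannZeta (s + t * I) with hz
  have hGd : GG M (s + t * I) = z * E - 1 := rfl
  set G := GG M (s + t * I) with hGe
  have h1G : 1 + G ≠ 0 := by
    intro h0
    have : G = -1 := by linear_combination h0
    rw [this, norm_neg, norm_one] at hG
    linarith
  have e2 : E⁻¹ = z / (1 + G) := by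
    rw [eq_div_iff h1G, hGd]
    field_simp
    ring
  have hz0 : ‖z‖ ≤ Cf + ε1 := by
    have : z = (z - f s) + f s := by ring
    rw [this]
    refine (norm_add_le _ _).trans ?_
    have := hCf s hs
    linarith
  have e3 : E⁻¹ - z = -(z * G / (1 + G)) := by
    rw [e2]
    field_simp
    ring
  have h4 : 1 / 2 ≤ ‖1 + G‖ := by
    have h5 := norm_sub_norm_le (1 : ℂ) (-G)
    rw [norm_one, norm_neg, sub_neg_eq_add] at h5
    linarith
  have h6 : ‖E⁻¹ - z‖ ≤ 2 * (Cf + ε1) * θ := by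
    rw [e3, norm_neg, norm_div, norm_mul, div_le_iff₀ (by linarith)]
    have h7 : ‖z‖ * ‖G‖ ≤ (Cf + ε1) * θ := mul_le_mul hz0 hG.le (norm_nonneg _) (by linarith)
    have h8 : 2 * (Cf + ε1) * θ * (1 / 2) ≤ 2 * (Cf + ε1) * θ * ‖1 + G‖ :=
      mul_le_mul_of_nonneg_left h4 (by positivity)
    linarith
  have e4 : E⁻¹ - f s = (E⁻¹ - z) + (z - f s) := by ring
  rw [e4]
  refine (norm_add_le _ _).trans ?_
  linarith

/-- from Euler products to shifts of zeta -/
lemma trans2 {M : ℕ} {K : Set ℂ} {a b B θ ε2 e2 Cf t : ℝ} (ha : 0 < a) (hK : K ⊆ rect a b B)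
    {f : ℂ → ℂ} (hCf : ∀ s ∈ K, ‖f s‖ ≤ Cf) (hθ : 0 < θ) (he2 : 0 < e2)
    (hCf0 : 0 ≤ Cf) (he : (Cf + e2) * θ < ε2 - e2) (hb : ¬ Bad M a b B θ t)
    (ht : torusPt (al M) t ∈ Op M K f e2) : t ∈ SS ε2 K f := by
  obtain ⟨δ, hδ, h⟩ := ht
  refine ⟨e2 + (Cf + e2) * θ, by linarith, fun s hs => ?_⟩
  have h1 := h s hs
  rw [EM_pt] at h1
  have hG : ‖GG M (s + t * I)‖ < θ := by
    by_contra hcon
    exact hb ⟨s, hK hs, not_lt.1 hcon⟩
  have hre : 0 < (s + t * I).re := by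
    have : (s + t * I).re = s.re := by simp
    rw [this]
    exact ha.trans_le (hK hs).1
  have hE0 : EM M (fun _ => 1) (s + t * I) ≠ 0 := EM_ne (fun _ => norm_one) hre
  set E := EM M (fun _ => 1) (s + t * I) with hE
  set z := riemannZeta (s + t * I) with hz
  have hGd : GG M (s + t * I) = z * E - 1 := rfl
  set G := GG M (s + t * I) with hGe
  have e3 : z - f s = E⁻¹ * G + (E⁻¹ - f s) := by
    rw [hGd]
    field_simp
    ring
  have h5 : ‖E⁻¹‖ ≤ Cf + e2 := by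
    have : E⁻¹ = (E⁻¹ - f s) + f s := by ring
    rw [this]
    refine (norm_add_le _ _).trans ?_
    have := hCf s hs
    linarith
  rw [e3]
  refine (norm_add_le _ _).trans ?_
  rw [norm_mul]
  have h6 : ‖E⁻¹‖ * ‖G‖ ≤ (Cf + e2) * θ := mul_le_mul h5 hG.le (norm_nonneg _) (by linarith)
  linarith

/-- **The key comparison.** -/
theorem key {K : Set ℂ} {a b B : ℝ} (h1 : 1 / 2 < a) (h2 : a ≤ b) (h3 : b < 1) (hB : 0 < B)
    (hK : K ⊆ rect a b B) {f : ℂ → ℂ} {Cf : ℝ} (hCf0 : 0 ≤ Cf) (hCf : ∀ s ∈ K, ‖f s‖ ≤ Cf)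
    {ε1 ε2 η : ℝ} (hε1 : 0 < ε1) (h12 : ε1 < ε2) (hη : 0 < η) :
    ∃ m : ℝ, 0 ≤ m ∧ m ≤ 1 ∧ ∃ T0 : ℝ, 10 ≤ T0 ∧ ∀ T ≥ T0,
      volume (SS ε1 K f ∩ Icc 0 T) ≤ ENNReal.ofReal ((m + η) * T) ∧
      ENNReal.ofReal ((m - η) * T) ≤ volume (SS ε2 K f ∩ Icc 0 T) ∧
      NU riemannZeta T (2 * T) (fun t => t ∈ SS ε1 K f) ≤ (m + η) * NN riemannZeta T (2 * T) ∧
      (m - η) * NN riemannZeta T (2 * T) ≤ NU riemannZeta T (2 * T) (fun t => t ∈ SS ε2 K f) ∧
      ((2 - cc 1) * m - η) * NN riemannZeta T (2 * T) ≤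
        ({t : ℝ | t ∈ SC T (2 * T) ∧ t ∈ SS ε2 K f}.ncard : ℝ) := by
  classical
  have ha : 0 < a := by linarith
  -- intermediate radii
  set e1 : ℝ := ε1 + (ε2 - ε1) / 3 with he1
  set e2 : ℝ := ε1 + 2 * (ε2 - ε1) / 3 with he2
  have hd : 0 < ε2 - ε1 := by linarith
  have hee : e1 < e2 := by rw [he1, he2]; linarith
  have he20 : 0 < e2 := by rw [he2]; linarith
  obtain ⟨θ, hθ, hθ1, hθ2, hθ3⟩ : ∃ θ : ℝ, 0 < θ ∧ θ ≤ 1 / 2 ∧ 2 * (Cf + ε1) * θ ≤ e1 - ε1 ∧
      (Cf + e2) * θ < ε2 - e2 := by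
    have hε2 : 0 < ε2 := by linarith
    have hW : 0 < Cf + ε2 + 1 := by positivity
    obtain ⟨d, hdd⟩ : ∃ d : ℝ, d = ε2 - ε1 := ⟨_, rfl⟩
    have hd0 : 0 < d := by rw [hdd]; exact hd
    have k0 : 0 < min (1 / 2) (d / (12 * (Cf + ε2 + 1))) := lt_min (by norm_num) (by positivity)
    have k1 : (Cf + ε2 + 1) * min (1 / 2) (d / (12 * (Cf + ε2 + 1))) ≤ d / 12 := by
      refine (mul_le_mul_of_nonneg_left (min_le_right _ _) hW.le).trans (le_of_eq ?_)
      field_simp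
    refine ⟨min (1 / 2) (d / (12 * (Cf + ε2 + 1))), k0, min_le_left _ _, ?_, ?_⟩
    · have k2 : (Cf + ε1) * min (1 / 2) (d / (12 * (Cf + ε2 + 1))) ≤
          (Cf + ε2 + 1) * min (1 / 2) (d / (12 * (Cf + ε2 + 1))) :=
        mul_le_mul_of_nonneg_right (by linarith) k0.le
      have k3 : e1 - ε1 = d / 3 := by rw [he1, hdd]; ring
      rw [k3]
      linarith
    · have k2 : (Cf + e2) * min (1 / 2) (d / (12 * (Cf + ε2 + 1))) ≤
          (Cf + ε2 + 1) * min (1 / 2) (d / (12 * (Cf + ε2 + 1))) := by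
        refine mul_le_mul_of_nonneg_right ?_ k0.le
        rw [he2]
        linarith
      have k3 : ε2 - e2 = d / 3 := by rw [he2, hdd]; ring
      rw [k3]
      linarith
  obtain ⟨M1, hM1⟩ := exc_time h1 h2 h3 hB hθ (show 0 < η / 4 by positivity)
  obtain ⟨M2, hM2⟩ := exc_zero h1 h2 h3 hB hθ (show 0 < η / 4 by positivity)
  set M := max M1 M2 with hM
  obtain ⟨T1, hT1, hT1'⟩ := hM1 M (le_max_left _ _)
  obtain ⟨T2, hT2, hT2'⟩ := hM2 M (le_max_right _ _)
  obtain ⟨g, hg0, hg1, hgC, hgO⟩ := ury M ha hK f hee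
  set m : ℝ := ∫ x, g x ∂(haarT (kk M)) with hm
  have hm0 : 0 ≤ m := integral_nonneg fun x => hg0 x
  have hmU := Op_meas M ha hK f hg1 hgO
  have hm1 : m ≤ 1 := by
    refine hmU.trans ?_
    have : haarT (kk M) (Op M K f e2) ≤ 1 := prob_le_one
    exact ENNReal.toReal_le_of_le_ofReal zero_le_one (by simpa using this)
  have hAP := APm_torus (al_indep M) g
  set φ : ℝ → ℝ := fun t => g (torusPt (al M) t) with hφ
  have hφc : Continuous φ := g.continuous.comp (torusPt_cont _)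
  obtain ⟨T3, hT3, hT3'⟩ := time_mean hAP hφc (show 0 < η / 4 by positivity)
  obtain ⟨T4, hT4, hT4'⟩ := firstDy good_zeta dens_zeta hAP (show 0 < η / 4 by positivity)
  obtain ⟨p, hp, T5, hT5, hT5'⟩ := torusU good_zeta dens_zeta (al_indep M)
    (Op_open M ha hK f e2) (show 0 < η / 4 by positivity)
  have hcc : 0 ≤ 2 - cc 1 := by
    have := cc_lt
    linarith
  -- sets
  have hClm : MeasurableSet {t : ℝ | torusPt (al M) t ∈ Cl M K f e1} :=
    ((Cl_closed M (fun s hs => ha.trans_le (hK hs).1) f e1).preimage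
      (torusPt_cont (al M))).measurableSet
  have hOpm : MeasurableSet {t : ℝ | torusPt (al M) t ∈ Op M K f e2} :=
    ((Op_open M ha hK f e2).preimage (torusPt_cont (al M))).measurableSet
  have tr1 : ∀ t, t ∈ SS ε1 K f → torusPt (al M) t ∈ Cl M K f e1 ∨ Bad M a b B θ t := by
    intro t ht
    by_cases hb : Bad M a b B θ t
    · exact Or.inr hb
    · exact Or.inl (trans1 ha hK hCf hθ hθ1 hε1 hCf0 hθ2 hb ht)
  have tr2 : ∀ t, torusPt (al M) t ∈ Op M K f e2 → t ∈ SS ε2 K f ∨ Bad M a b B θ t := by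
    intro t ht
    by_cases hb : Bad M a b B θ t
    · exact Or.inr hb
    · exact Or.inl (trans2 ha hK hCf hθ he20 hCf0 hθ3 hb ht)
  refine ⟨m, hm0, hm1, max (max T1 T2) (max T3 (max T4 T5)),
    (hT2.trans (le_max_right _ _)).trans (le_max_left _ _), fun T hT => ?_⟩
  have q1 : T1 ≤ T := ((le_max_left _ _).trans (le_max_left _ _)).trans hT
  have q2 : T2 ≤ T := ((le_max_right _ _).trans (le_max_left _ _)).trans hT
  have q3 : T3 ≤ T := ((le_max_left _ _).trans (le_max_right _ _)).trans hT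
  have q4 : T4 ≤ T := ((le_max_left _ _).trans ((le_max_right _ _).trans (le_max_right _ _))).trans hT
  have q5 : T5 ≤ T := ((le_max_right _ _).trans ((le_max_right _ _).trans (le_max_right _ _))).trans hT
  have hT0 : 0 < T := hT1.trans_le q1
  have hTone : 1 ≤ T := by linarith
  have b1 := hT1' T q1
  have b2 := hT2' T q2
  have b3 := abs_le.1 (hT3' T q3)
  have b4 := abs_le.1 (hT4' T q4)
  have b5 := (hT5' T q5).1
  have hNN : (0 : ℝ) ≤ NN riemannZeta T (2 * T) := Nat.cast_nonneg _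
  refine ⟨?_, ?_, ?_, ?_, ?_⟩
  · -- time, upper
    have k1 : SS ε1 K f ∩ Icc 0 T ⊆ ({t : ℝ | torusPt (al M) t ∈ Cl M K f e1} ∩ Icc 0 T) ∪
        {t : ℝ | t ∈ Icc 0 T ∧ Bad M a b B θ t} := by
      rintro t ⟨ht, htT⟩
      rcases tr1 t ht with h | h
      · exact Or.inl ⟨h, htT⟩
      · exact Or.inr ⟨htT, h⟩
    have k2 := vol_le_int hφc (fun t => hg0 _) hClm (fun t ht => (hgC _ ht).ge) hT0.le
    refine (measure_mono k1).trans ((measure_union_le _ _).trans ?_)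
    refine (add_le_add k2 b1).trans ?_
    rw [← ENNReal.ofReal_add (intervalIntegral.integral_nonneg hT0.le fun t _ => hg0 _)
      (by positivity)]
    apply ENNReal.ofReal_le_ofReal
    have := b3.2
    nlinarith
  · -- time, lower
    have k1 : {t : ℝ | torusPt (al M) t ∈ Op M K f e2} ∩ Icc 0 T ⊆ (SS ε2 K f ∩ Icc 0 T) ∪
        {t : ℝ | t ∈ Icc 0 T ∧ Bad M a b B θ t} := by
      rintro t ⟨ht, htT⟩
      rcases tr2 t ht with h | h
      · exact Or.inl ⟨h, htT⟩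
      · exact Or.inr ⟨htT, h⟩
    have k2 := int_le_vol hφc (fun t => hg1 _) hOpm (fun t ht => (hgO _ ht).le) hT0.le
    have k3 := k2.trans ((measure_mono k1).trans ((measure_union_le _ _).trans
      (add_le_add le_rfl b1)))
    have hV : volume (SS ε2 K f ∩ Icc 0 T) ≠ ⊤ :=
      ((measure_mono inter_subset_right).trans_lt (by
        rw [Real.volume_Icc]
        exact ENNReal.ofReal_lt_top)).ne
    have k4 := ENNReal.toReal_mono (ENNReal.add_ne_top.2 ⟨hV, ENNReal.ofReal_ne_top⟩) k3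
    rw [ENNReal.toReal_ofReal (intervalIntegral.integral_nonneg hT0.le fun t _ => hg0 _),
      ENNReal.toReal_add hV ENNReal.ofReal_ne_top, ENNReal.toReal_ofReal (by positivity)] at k4
    refine ENNReal.ofReal_le_of_le_toReal ?_
    have := b3.1
    nlinarith
  · have k1 := NU_le_add riemannZeta T (2 * T) tr1
    have k2 := NU_le_MW riemannZeta T (2 * T) (P := fun t => torusPt (al M) t ∈ Cl M K f e1)
      (φ := φ) (fun t => hg0 _) (fun t ht => (hgC _ ht).ge)
    have := b4.2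
    nlinarith
  · have k1 := NU_le_add riemannZeta T (2 * T) tr2
    have k2 := MW_le_NU riemannZeta T (2 * T) (P := fun t => torusPt (al M) t ∈ Op M K f e2)
      (φ := φ) (fun t => hg1 _) (fun t ht => (hgO _ ht).le)
    have := b4.1
    nlinarith
  · have k1 := X1_le_ncard (B := 2 * T) hTone (p := p) (P := fun t => torusPt (al M) t ∈ Op M K f e2) hp
    have k2 : ({t : ℝ | t ∈ SC T (2 * T) ∧ torusPt (al M) t ∈ Op M K f e2}.ncard : ℝ) ≤
        ({t : ℝ | t ∈ SC T (2 * T) ∧ t ∈ SS ε2 K f}.ncard : ℝ) +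
          ({t : ℝ | t ∈ SC T (2 * T) ∧ Bad M a b B θ t}.ncard : ℝ) := by
      have hf1 : ({t : ℝ | t ∈ SC T (2 * T) ∧ t ∈ SS ε2 K f} ∪
          {t : ℝ | t ∈ SC T (2 * T) ∧ Bad M a b B θ t}).Finite :=
        ((SC_fin hTone).subset fun t ht => ht.1).union ((SC_fin hTone).subset fun t ht => ht.1)
      have k3 := Set.ncard_le_ncard (s := {t : ℝ | t ∈ SC T (2 * T) ∧
        torusPt (al M) t ∈ Op M K f e2}) (t := {t : ℝ | t ∈ SC T (2 * T) ∧ t ∈ SS ε2 K f} ∪
          {t : ℝ | t ∈ SC T (2 * T) ∧ Bad M a b B θ t}) (by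
          rintro t ⟨ht1, ht2⟩
          rcases tr2 t ht2 with h | h
          · exact Or.inl ⟨ht1, h⟩
          · exact Or.inr ⟨ht1, h⟩) hf1
      have k4 := Set.ncard_union_le {t : ℝ | t ∈ SC T (2 * T) ∧ t ∈ SS ε2 K f}
          {t : ℝ | t ∈ SC T (2 * T) ∧ Bad M a b B θ t}
      exact_mod_cast k3.trans k4
    have k5 := SC_le_NU (B := 2 * T) hTone (Bad M a b B θ)
    have k6 : (X1 riemannZeta T (2 * T) p : ℝ) ≤
      ({t : ℝ | t ∈ SC T (2 * T) ∧ torusPt (al M) t ∈ Op M K f e2}.ncard : ℝ) := k1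
    have k7 : (2 - cc 1) * m ≤ (2 - cc 1) * (haarT (kk M) (Op M K f e2)).toReal :=
      mul_le_mul_of_nonneg_left hmU hcc
    have k8 : ((2 - cc 1) * m - η / 4) * NN riemannZeta T (2 * T) ≤
        ((2 - cc 1) * (haarT (kk M) (Op M K f e2)).toReal - η / 4) * NN riemannZeta T (2 * T) :=
      mul_le_mul_of_nonneg_right (by linarith) hNN
    nlinarith

end Pool.Agent.Q286.UZ
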