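import Pool.Agent.Q286.UZ.Key
import Pool.Agent.Y834.UT.Main

/-!
The law of the values of zeta at shifts by ordinates of zeros.
-/

set_option autoImplicit false
set_option linter.all false

namespace Pool.Agent.Q286.UZ

open Complex Filter Topology Set MeasureTheory ZU H370 H370.A2 H370.AS H295SI TH803TW TH803UC
open Pool.Agent.Y834.UT (SS ld Tgt hull)

/-- the limit law -/
noncomputable def DD (K : Set ℂ) (f : ℂ → ℂ) (ε : ℝ) : ℝ := (ld (SS ε K f)).toReal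

lemma SS_mono {K : Set ℂ} {f : ℂ → ℂ} {ε1 ε2 : ℝ} (h : ε1 ≤ ε2) : SS ε1 K f ⊆ SS ε2 K f := by
  rintro t ⟨δ, hδ, ht⟩
  exact ⟨δ, hδ.trans_le h, ht⟩

lemma ld_le_one (E : Set ℝ) : ld E ≤ 1 := by
  unfold ld
  refine liminf_le_of_le (by isBoundedDefault) ?_
  intro b hb
  obtain ⟨T, hT, hT0⟩ := (hb.and (eventually_gt_atTop (0 : ℝ))).exists
  refine hT.trans ?_
  rw [ENNReal.div_le_iff (ENNReal.ofReal_pos.2 hT0).ne' ENNReal.ofReal_ne_top, one_mul]
  refine (measure_mono inter_subset_right).trans ?_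
  rw [Real.volume_Icc, sub_zero]

lemma ld_ne_top (E : Set ℝ) : ld E ≠ ⊤ := ((ld_le_one E).trans_lt ENNReal.one_lt_top).ne

lemma DD_nonneg (K : Set ℂ) (f : ℂ → ℂ) (ε : ℝ) : 0 ≤ DD K f ε := ENNReal.toReal_nonneg

lemma DD_le_one (K : Set ℂ) (f : ℂ → ℂ) (ε : ℝ) : DD K f ε ≤ 1 := by
  unfold DD
  have := ENNReal.toReal_mono ENNReal.one_ne_top (ld_le_one (SS ε K f))
  simpa using this

lemma DD_mono (K : Set ℂ) (f : ℂ → ℂ) : Monotone (DD K f) := by
  intro ε1 ε2 h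
  unfold DD
  refine ENNReal.toReal_mono (ld_ne_top _) ?_
  unfold ld
  refine liminf_le_liminf (Eventually.of_forall fun T => ?_)
  gcongr
  exact SS_mono h

lemma ld_upper {E : Set ℝ} {m T0 : ℝ} (hm : 0 ≤ m) (h : ∀ T ≥ T0, volume (E ∩ Icc 0 T) ≤
    ENNReal.ofReal (m * T)) : (ld E).toReal ≤ m := by
  refine ENNReal.toReal_le_of_le_ofReal hm ?_
  unfold ld
  refine liminf_le_of_le (by isBoundedDefault) ?_
  intro b hb
  obtain ⟨T, ⟨hT, hT0⟩, hTT⟩ := ((hb.and (eventually_gt_atTop (0 : ℝ))).and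
    (eventually_ge_atTop T0)).exists
  refine hT.trans ?_
  rw [ENNReal.div_le_iff (ENNReal.ofReal_pos.2 hT0).ne' ENNReal.ofReal_ne_top,
    ← ENNReal.ofReal_mul hm]
  exact h T hTT

lemma ld_lower {E : Set ℝ} {m T0 : ℝ} (h : ∀ T ≥ T0, ENNReal.ofReal (m * T) ≤
    volume (E ∩ Icc 0 T)) : m ≤ (ld E).toReal := by
  rcases le_or_gt m 0 with hm | hm
  · exact hm.trans ENNReal.toReal_nonneg
  rw [← ENNReal.ofReal_le_iff_le_toReal (ld_ne_top _)]
  unfold ld
  refine le_liminf_of_le (by isBoundedDefault) ?_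
  filter_upwards [eventually_ge_atTop T0, eventually_gt_atTop 0] with T hTT hT0
  rw [ENNReal.le_div_iff_mul_le (Or.inl (ENNReal.ofReal_pos.2 hT0).ne')
    (Or.inl ENNReal.ofReal_ne_top), ← ENNReal.ofReal_mul hm.le]
  exact h T hTT

/-- shifts of zeta are bounded on compact subsets of the strip -/
lemma shift_bdd {K : Set ℂ} (hK : IsCompact K) (hKs : ∀ z ∈ K, 1 / 2 < z.re ∧ z.re < 1) (t : ℝ) :
    ∃ C : ℝ, ∀ z ∈ K, ‖riemannZeta (z + t * I)‖ ≤ C := by
  refine hK.exists_bound_of_continuousOn (f := fun z => riemannZeta (z + t * I)) ?_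
  exact (Pool.Agent.Y834.UT.F_diff t).continuousOn.mono fun z hz => (hKs z hz).2

lemma dichot {K : Set ℂ} (hK : IsCompact K) (hKs : ∀ z ∈ K, 1 / 2 < z.re ∧ z.re < 1)
    (f : ℂ → ℂ) : (∃ Cf : ℝ, 0 ≤ Cf ∧ ∀ s ∈ K, ‖f s‖ ≤ Cf) ∨ ∀ ε : ℝ, SS ε K f = ∅ := by
  by_cases h : ∃ Cf : ℝ, 0 ≤ Cf ∧ ∀ s ∈ K, ‖f s‖ ≤ Cf
  · exact Or.inl h
  · refine Or.inr fun ε => ?_
    rw [Set.eq_empty_iff_forall_notMem]
    rintro t ⟨δ, hδ, ht⟩
    obtain ⟨C, hC⟩ := shift_bdd hK hKs t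
    refine h ⟨|C| + |δ|, by positivity, fun s hs => ?_⟩
    have e : f s = riemannZeta (s + t * I) - (riemannZeta (s + t * I) - f s) := by ring
    rw [e]
    refine (norm_sub_le _ _).trans ?_
    have h1 := hC s hs
    have h2 := ht s hs
    have h3 := le_abs_self C
    have h4 := le_abs_self δ
    linarith

/-- **The laws**, in terms of the lower density of the set of shifts. -/
theorem laws {K : Set ℂ} (hK : IsCompact K) (hKs : ∀ z ∈ K, 1 / 2 < z.re ∧ z.re < 1)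
    (f : ℂ → ℂ) {ε1 ε2 η : ℝ} (hε1 : 0 < ε1) (h12 : ε1 < ε2) (hη : 0 < η) :
    ∃ T0 : ℝ, 10 ≤ T0 ∧ ∀ T ≥ T0,
      volume (SS ε1 K f ∩ Icc 0 T) ≤ ENNReal.ofReal ((DD K f ε2 + η) * T) ∧
      ENNReal.ofReal ((DD K f ε1 - η) * T) ≤ volume (SS ε2 K f ∩ Icc 0 T) ∧
      NU riemannZeta T (2 * T) (fun t => t ∈ SS ε1 K f) ≤
        (DD K f ε2 + η) * NN riemannZeta T (2 * T) ∧
      (DD K f ε1 - η) * NN riemannZeta T (2 * T) ≤
        NU riemannZeta T (2 * T) (fun t => t ∈ SS ε2 K f) ∧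
      ((2 - cc 1) * DD K f ε1 - η) * NN riemannZeta T (2 * T) ≤
        ({t : ℝ | t ∈ SC T (2 * T) ∧ t ∈ SS ε2 K f}.ncard : ℝ) := by
  rcases dichot hK hKs f with ⟨Cf, hCf0, hCf⟩ | hemp
  · obtain ⟨a, b, B, h1, h2, h3, h4, hR⟩ := ZU.J_f.exists_rectV K hK hKs
    obtain ⟨m, hm0, hm1, T0, hT0, h⟩ := key h1 h2 h3 h4 hR hCf0 hCf hε1 h12
      (show 0 < η / 4 by positivity)
    have d1 : DD K f ε1 ≤ m + η / 4 := ld_upper (by positivity) fun T hT => (h T hT).1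
    have d2 : m - η / 4 ≤ DD K f ε2 := ld_lower fun T hT => (h T hT).2.1
    have hc0 : 0 ≤ 2 - cc 1 := by
      have := cc_lt
      linarith
    have hc1 : 2 - cc 1 ≤ 1 := by
      have := cc_gt
      linarith
    refine ⟨T0, hT0, fun T hT => ?_⟩
    obtain ⟨k1, k2, k3, k4, k5⟩ := h T hT
    have hT00 : 0 ≤ T := by linarith [hT0.trans hT]
    have hNN : (0 : ℝ) ≤ NN riemannZeta T (2 * T) := Nat.cast_nonneg _
    refine ⟨k1.trans (ENNReal.ofReal_le_ofReal ?_), (ENNReal.ofReal_le_ofReal ?_).trans k2,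
      k3.trans ?_, le_trans ?_ k4, le_trans ?_ k5⟩
    · exact mul_le_mul_of_nonneg_right (by linarith) hT00
    · exact mul_le_mul_of_nonneg_right (by linarith) hT00
    · exact mul_le_mul_of_nonneg_right (by linarith) hNN
    · exact mul_le_mul_of_nonneg_right (by linarith) hNN
    · apply mul_le_mul_of_nonneg_right _ hNN
      have := mul_le_mul_of_nonneg_left d1 hc0
      nlinarith
  · have hD : ∀ ε, DD K f ε = 0 := by
      intro ε
      refine le_antisymm ?_ (DD_nonneg _ _ _)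
      refine ld_upper (T0 := 0) le_rfl fun T _ => ?_
      rw [hemp ε]
      simp
    refine ⟨10, le_rfl, fun T hT => ?_⟩
    have hT00 : 0 ≤ T := by linarith
    have hNN : (0 : ℝ) ≤ NN riemannZeta T (2 * T) := Nat.cast_nonneg _
    have hNU : NU riemannZeta T (2 * T) (fun t => t ∈ SS ε1 K f) ≤ 0 := by
      classical
      unfold NU
      rw [Finset.filter_false_of_mem (fun s _ => by rw [hemp ε1]; exact Set.notMem_empty _)]
      simp
    rw [hD, hD]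
    refine ⟨?_, ?_, ?_, ?_, ?_⟩
    · rw [hemp ε1]
      simp
    · rw [ENNReal.ofReal_of_nonpos (by nlinarith)]
      exact zero_le
    · refine hNU.trans ?_
      positivity
    · refine le_trans ?_ (NU_nonneg _ _ _ _)
      nlinarith
    · refine le_trans ?_ (Nat.cast_nonneg _)
      nlinarith

lemma NN_pos {T : ℝ} (hT : 10 ≤ T) (h : T * Real.log T ≤ 7 * NN riemannZeta T (2 * T)) :
    (0 : ℝ) < NN riemannZeta T (2 * T) := by
  have : 0 < T * Real.log T := mul_pos (by linarith) (Real.log_pos (by linarith))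
  linarith

/-- the limit laws at the points of continuity -/
theorem limits {K : Set ℂ} (hK : IsCompact K) (hKs : ∀ z ∈ K, 1 / 2 < z.re ∧ z.re < 1)
    (f : ℂ → ℂ) {ε : ℝ} (hε : 0 < ε) (hc : ContinuousAt (DD K f) ε) :
    Tendsto (fun T : ℝ => (volume (SS ε K f ∩ Icc 0 T)).toReal / T) atTop (𝓝 (DD K f ε)) ∧
    Tendsto (fun T : ℝ => NU riemannZeta T (2 * T) (fun t => t ∈ SS ε K f) /
      NN riemannZeta T (2 * T)) atTop (𝓝 (DD K f ε)) ∧
    ∀ η : ℝ, 0 < η → ∃ T0 : ℝ, 10 ≤ T0 ∧ ∀ T ≥ T0,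
      ((2 - cc 1) * DD K f ε - η) * NN riemannZeta T (2 * T) ≤
        ({t : ℝ | t ∈ SC T (2 * T) ∧ t ∈ SS ε K f}.ncard : ℝ) := by
  have hc0 : 0 ≤ 2 - cc 1 := by
    have := cc_lt
    linarith
  have hc1 : 2 - cc 1 ≤ 1 := by
    have := cc_gt
    linarith
  have hex : ∀ η : ℝ, 0 < η → ∃ ε1 ε2 : ℝ, 0 < ε1 ∧ ε1 < ε ∧ ε < ε2 ∧
      DD K f ε - η < DD K f ε1 ∧ DD K f ε2 < DD K f ε + η := by
    intro η hη
    obtain ⟨δ, hδ, h⟩ := Metric.continuousAt_iff.1 hc η hη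
    have h1 : dist (ε + δ / 2) ε < δ := by
      rw [Real.dist_eq, add_sub_cancel_left, abs_of_pos (by positivity)]
      linarith
    set ρ := min (δ / 2) (ε / 2) with hρ
    have hρ0 : 0 < ρ := lt_min (by positivity) (by positivity)
    have hρ1 : ρ ≤ δ / 2 := min_le_left _ _
    have hρ2 : ρ ≤ ε / 2 := min_le_right _ _
    have h2 : dist (ε - ρ) ε < δ := by
      rw [Real.dist_eq, sub_sub_cancel_left, abs_neg, abs_of_pos hρ0]
      linarith
    have h3 := h h1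
    have h4 := h h2
    rw [Real.dist_eq, abs_lt] at h3 h4
    exact ⟨ε - ρ, ε + δ / 2, by linarith, by linarith, by linarith, by linarith [h4.1],
      by linarith [h3.2]⟩
  obtain ⟨TN, hTN, hN⟩ := NN_low good_zeta
  refine ⟨?_, ?_, ?_⟩
  · rw [Metric.tendsto_atTop]
    intro η hη
    obtain ⟨ε1, ε2, k0, k1, k2, k3, k4⟩ := hex (η / 4) (by positivity)
    obtain ⟨T1, hT1, h1⟩ := laws hK hKs f k0 k1 (show 0 < η / 4 by positivity)
    obtain ⟨T2, hT2, h2⟩ := laws hK hKs f hε k2 (show 0 < η / 4 by positivity)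
    refine ⟨max T1 T2, fun T hT => ?_⟩
    have hT0 : 0 < T := by linarith [(hT1.trans (le_max_left T1 T2)).trans hT]
    have a1 := (h1 T ((le_max_left _ _).trans hT)).2.1
    have a2 := (h2 T ((le_max_right _ _).trans hT)).1
    have hV : volume (SS ε K f ∩ Icc 0 T) ≠ ⊤ :=
      ((measure_mono inter_subset_right).trans_lt (by
        rw [Real.volume_Icc]
        exact ENNReal.ofReal_lt_top)).ne
    have b1 : (DD K f ε1 - η / 4) * T ≤ (volume (SS ε K f ∩ Icc 0 T)).toReal := by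
      rcases le_or_gt ((DD K f ε1 - η / 4) * T) 0 with h | h
      · exact h.trans ENNReal.toReal_nonneg
      · exact (ENNReal.ofReal_le_iff_le_toReal hV).1 a1
    have b2 : (volume (SS ε K f ∩ Icc 0 T)).toReal ≤ (DD K f ε2 + η / 4) * T := by
      refine ENNReal.toReal_le_of_le_ofReal ?_ a2
      have := DD_nonneg K f ε2
      positivity
    rw [Real.dist_eq, abs_lt]
    constructor
    · rw [lt_sub_iff_add_lt, lt_div_iff₀ hT0]
      refine lt_of_lt_of_le ?_ b1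
      apply mul_lt_mul_of_pos_right _ hT0
      linarith
    · rw [sub_lt_iff_lt_add, div_lt_iff₀ hT0]
      refine lt_of_le_of_lt b2 ?_
      apply mul_lt_mul_of_pos_right _ hT0
      linarith
  · rw [Metric.tendsto_atTop]
    intro η hη
    obtain ⟨ε1, ε2, k0, k1, k2, k3, k4⟩ := hex (η / 4) (by positivity)
    obtain ⟨T1, hT1, h1⟩ := laws hK hKs f k0 k1 (show 0 < η / 4 by positivity)
    obtain ⟨T2, hT2, h2⟩ := laws hK hKs f hε k2 (show 0 < η / 4 by positivity)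
    refine ⟨max TN (max T1 T2), fun T hT => ?_⟩
    have hTT : TN ≤ T := (le_max_left _ _).trans hT
    have hT12 : max T1 T2 ≤ T := (le_max_right _ _).trans hT
    have hNp : (0 : ℝ) < NN riemannZeta T (2 * T) := NN_pos (hTN.trans hTT) (hN T hTT)
    have a1 := (h1 T ((le_max_left _ _).trans hT12)).2.2.2.1
    have a2 := (h2 T ((le_max_right _ _).trans hT12)).2.2.1
    rw [Real.dist_eq, abs_lt]
    constructor
    · rw [lt_sub_iff_add_lt, lt_div_iff₀ hNp]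
      refine lt_of_lt_of_le ?_ a1
      apply mul_lt_mul_of_pos_right _ hNp
      linarith
    · rw [sub_lt_iff_lt_add, div_lt_iff₀ hNp]
      refine lt_of_le_of_lt a2 ?_
      apply mul_lt_mul_of_pos_right _ hNp
      linarith
  · intro η hη
    obtain ⟨ε1, ε2, k0, k1, k2, k3, k4⟩ := hex (η / 2) (by positivity)
    obtain ⟨T1, hT1, h1⟩ := laws hK hKs f k0 k1 (show 0 < η / 2 by positivity)
    refine ⟨T1, hT1, fun T hT => ?_⟩
    have a1 := (h1 T hT).2.2.2.2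
    have hNN : (0 : ℝ) ≤ NN riemannZeta T (2 * T) := Nat.cast_nonneg _
    refine le_trans (mul_le_mul_of_nonneg_right ?_ hNN) a1
    have := mul_le_mul_of_nonneg_left k3.le hc0
    nlinarith

/-- positive proportions of simple critical zeros for targets -/
theorem target_pos {K : Set ℂ} (hK : IsCompact K) (hKs : ∀ z ∈ K, 1 / 2 < z.re ∧ z.re < 1)
    {f : ℂ → ℂ} (hf : Tgt K f) {ε : ℝ} (hε : 0 < ε) : 0 < DD K f ε := by
  have h := (Pool.Agent.Y834.UT.main hK hKs f).1.2 hf ε hε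
  exact ENNReal.toReal_pos h.ne' (ld_ne_top _)

theorem target_simple {K : Set ℂ} (hK : IsCompact K) (hKs : ∀ z ∈ K, 1 / 2 < z.re ∧ z.re < 1)
    {f : ℂ → ℂ} (hf : Tgt K f) {ε : ℝ} (hε : 0 < ε) : ∃ κ : ℝ, 0 < κ ∧ ∃ T0 : ℝ, 10 ≤ T0 ∧
      ∀ T ≥ T0, κ * NN riemannZeta T (2 * T) ≤
        ({t : ℝ | t ∈ SC T (2 * T) ∧ t ∈ SS ε K f}.ncard : ℝ) := by
  have h1 := target_pos hK hKs hf (half_pos hε)
  have hc0 : 0 < 2 - cc 1 := by
    have := cc_lt
    linarith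
  have h2 : 0 < (2 - cc 1) * DD K f (ε / 2) := mul_pos hc0 h1
  obtain ⟨T0, hT0, h⟩ := laws hK hKs f (half_pos hε) (half_lt_self hε) (half_pos h2)
  refine ⟨(2 - cc 1) * DD K f (ε / 2) / 2, half_pos h2, T0, hT0, fun T hT => ?_⟩
  refine le_trans (le_of_eq ?_) (h T hT).2.2.2.2
  ring

/-- the converse -/
theorem target_conv {K : Set ℂ} (hK : IsCompact K) (hKs : ∀ z ∈ K, 1 / 2 < z.re ∧ z.re < 1)
    {f : ℂ → ℂ} (h : ∀ ε : ℝ, 0 < ε → ∃ κ : ℝ, 0 < κ ∧ ∀ T0 : ℝ, ∃ T ≥ T0,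
      κ * NN riemannZeta T (2 * T) ≤ NU riemannZeta T (2 * T) (fun t => t ∈ SS ε K f)) :
    Tgt K f := by
  apply (Pool.Agent.Y834.UT.main hK hKs f).1.1
  intro ε hε
  by_contra hcon
  have h0 : ld (SS ε K f) = 0 := le_antisymm (not_lt.1 hcon) zero_le
  have hD : DD K f ε = 0 := by unfold DD; rw [h0]; simp
  obtain ⟨κ, hκ, hk⟩ := h (ε / 2) (half_pos hε)
  obtain ⟨T1, hT1, h1⟩ := laws hK hKs f (half_pos hε) (half_lt_self hε) (half_pos hκ)
  obtain ⟨TN, hTN, hN⟩ := NN_low good_zeta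
  obtain ⟨T, hT, h2⟩ := hk (max T1 TN)
  have h3 := (h1 T ((le_max_left _ _).trans hT)).2.2.1
  have hTT : TN ≤ T := (le_max_right _ _).trans hT
  have hNp : (0 : ℝ) < NN riemannZeta T (2 * T) := NN_pos (hTN.trans hTT) (hN T hTT)
  rw [hD, zero_add] at h3
  have h4 := h2.trans h3
  have h5 := le_of_mul_le_mul_right h4 hNp
  linarith

end Pool.Agent.Q286.UZ
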